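import Pool.Agent.Lib.VMT.Data.Blocks0
import Pool.Agent.Lib.VMT.Data.Blocks1
import Pool.Agent.Lib.VMT.Data.Blocks2
import Pool.Agent.Lib.VMT.Data.Blocks3
import Pool.Agent.Lib.VMT.Data.Blocks4
import Pool.Agent.Lib.VMT.Data.Blocks5
import Pool.Agent.Lib.VMT.Data.Blocks6
import Pool.Agent.Lib.VMT.Data.Blocks7

/-! # VMT.Data.Blocks : the library of blocks -/

set_option autoImplicit false
set_option maxRecDepth 100000

namespace Pool.Agent.VMT

noncomputable def blks : BT Blk :=
 .node (.node (.node (blk0)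
 (blk4))
 (.node (blk2)
 (blk6)))
 (.node (.node (blk1)
 (blk5))
 (.node (blk3)
 (blk7)))

theorem blks_valid : blks.All Blk.Valid :=
 (BT.All.node (BT.All.node (BT.All.node blk0_valid
 blk4_valid)
 (BT.All.node blk2_valid
 blk6_valid))
 (BT.All.node (BT.All.node blk1_valid
 blk5_valid)
 (BT.All.node blk3_valid
 blk7_valid)))

end Pool.Agent.VMT
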