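import Pool.Agent.Lib.VMT.Small

/-! # VMT.Data.Direct : labelings of small graphs (data) -/

set_option autoImplicit false
set_option maxRecDepth 100000

namespace Pool.Agent.VMT

noncomputable def dcs : BT Dc :=
 .node (.node (.node (.node (.node (.node (.leaf ⟨[3], 9, [0x30201]⟩)
 (.leaf ⟨[12], 32, [0xb04090a0e020c0506030701]⟩))
 (.node (.leaf ⟨[5, 5], 27, [0xa03090701, 0xd06040502]⟩)
 (.leaf ⟨[3, 11], 37, [0x100a03, 0xf090207050c0806040e01]⟩)))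
 (.node (.node (.leaf ⟨[8], 22, [0x9020603040a0501]⟩)
 (.leaf ⟨[5, 8], 34, [0xd060b0905, 0x8020a030c040701]⟩))
 (.node (.leaf ⟨[3, 3, 3, 3], 33, [0xf0b01, 0xd0c02, 0xe0a03, 0x50604]⟩)
 (.leaf ⟨[3, 3, 3, 3, 3, 3], 47, [0x130f01, 0x110a02, 0x150803, 0xe0b04, 0xc0905, 0x100706]⟩))))
 (.node (.node (.node (.leaf ⟨[3, 4], 21, [0x90802, 0x6030d01]⟩)
 (.leaf ⟨[3, 5, 5], 34, [0xd0603, 0x90b040701, 0xc05080a02]⟩))
 (.node (.leaf ⟨[3, 8], 29, [0xb0502, 0x8030906040a0701]⟩)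
 (.leaf ⟨[5, 9], 37, [0x12070d0805, 0xb040a06030f020901]⟩)))
 (.node (.node (.leaf ⟨[9], 24, [0x90403080602070501]⟩)
 (.leaf ⟨[3, 3, 4, 4], 37, [0xb0703, 0x120504, 0x10080c01, 0x9060a02]⟩))
 (.leaf ⟨[4, 4, 4], 32, [0x10060901, 0xb070c02, 0x8040503]⟩))))
 (.node (.node (.node (.node (.leaf ⟨[5], 14, [0x402050301]⟩)
 (.leaf ⟨[3, 3, 7], 34, [0xd0504, 0xc0807, 0xb030a06020901]⟩))
 (.node (.leaf ⟨[3, 3, 5], 30, [0xa0701, 0x90603, 0xc0e050802]⟩)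
 (.leaf ⟨[4, 5, 5], 37, [0xe080b02, 0xd05070a01, 0xc10040603]⟩)))
 (.node (.node (.leaf ⟨[3, 6], 24, [0x90503, 0x80204070601]⟩)
 (.leaf ⟨[13], 34, [0xb0206040a09070d050c030801]⟩))
 (.leaf ⟨[3, 4, 5], 32, [0x80704, 0xb030602, 0xf050d0901]⟩)))
 (.node (.node (.node (.leaf ⟨[3, 5], 22, [0x90803, 0x702040601]⟩)
 (.leaf ⟨[4, 4, 5], 34, [0xb090701, 0xd060504, 0xc030a0802]⟩))
 (.node (.leaf ⟨[5, 6], 29, [0x907040801, 0x50a030b0602]⟩)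
 (.leaf ⟨[7, 7], 37, [0xc10020e080b01, 0x6050a040d0703]⟩)))
 (.node (.node (.leaf ⟨[3, 7], 27, [0xa0804, 0xe020703050601]⟩)
 (.leaf ⟨[3, 4, 7], 37, [0xc0b01, 0xa070905, 0x10041206030802]⟩))
 (.leaf ⟨[5, 7], 32, [0x1006050c02, 0x80b0409030701]⟩)))))
 (.node (.node (.node (.node (.node (.leaf ⟨[4], 12, [0x6020301]⟩)
 (.leaf ⟨[3, 3, 3, 4], 35, [0xd0a01, 0x100e02, 0x60703, 0xb090804]⟩))
 (.node (.leaf ⟨[10], 27, [0xe02080a040306050701]⟩)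
 (.leaf ⟨[4, 4, 6], 37, [0x11020e01, 0x5070604, 0xb0a0f090803]⟩)))
 (.node (.node (.leaf ⟨[3, 3, 3], 24, [0x90501, 0x70602, 0x80403]⟩)
 (.leaf ⟨[6, 7], 34, [0xa030c080902, 0xd0604050b0701]⟩))
 (.leaf ⟨[3, 3, 6], 32, [0xd0c04, 0xa0805, 0xb0306020901]⟩)))
 (.node (.node (.node (.leaf ⟨[7], 19, [0x7030204050601]⟩)
 (.leaf ⟨[3, 10], 34, [0xb0903, 0xa070c0406020d050801]⟩))
 (.node (.leaf ⟨[4, 7], 29, [0x50b0602, 0x9030a04070801]⟩)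
 (.leaf ⟨[6, 8], 37, [0x5070d090604, 0xc020e0312080a01]⟩)))
 (.node (.node (.leaf ⟨[3, 3, 4], 27, [0xa0502, 0xd0603, 0x9040701]⟩)
 (.leaf ⟨[3, 3, 8], 37, [0xf0e04, 0x90c05, 0xb020d0703060a01]⟩))
 (.leaf ⟨[4, 8], 32, [0xf070b05, 0xd02060409030801]⟩))))
 (.node (.node (.node (.node (.leaf ⟨[6], 17, [0x60702030501]⟩)
 (.leaf ⟨[3, 4, 6], 34, [0xa0701, 0xc060d03, 0xb0905040802]⟩))
 (.node (.leaf ⟨[3, 4, 4], 29, [0x40503, 0x9020b01, 0xa070806]⟩)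
 (.leaf ⟨[4, 10], 37, [0xd060c02, 0xf08030a070504110901]⟩)))
 (.node (.node (.leaf ⟨[4, 5], 24, [0x8050903, 0x702040601]⟩)
 (.leaf ⟨[3, 3, 3, 5], 37, [0xa0b01, 0xf0e02, 0x90504, 0xc060d0703]⟩))
 (.leaf ⟨[3, 9], 32, [0xc0903, 0xd040605080e020701]⟩)))
 (.node (.node (.node (.leaf ⟨[4, 4], 22, [0x6030501, 0xb040802]⟩)
 (.leaf ⟨[4, 9], 34, [0xc030701, 0x90b05040d06080a02]⟩))
 (.node (.leaf ⟨[11], 29, [0xa020b0604030509070801]⟩)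
 (.leaf ⟨[14], 37, [0xd0705060a09040b0e0313020801]⟩)))
 (.node (.node (.leaf ⟨[4, 6], 27, [0xf020701, 0x80509060403]⟩)
 (.leaf ⟨[3, 5, 6], 37, [0xe0605, 0xf09040801, 0x100a07030c02]⟩))
 (.leaf ⟨[6, 6], 32, [0xb020e060801, 0x7040d0a0503]⟩)))))

theorem dcs_valid : dcs.All fun d => Vm (d.F : Multiset ℕ) :=
  BT.All_of_all (fun _ h => Dc.vm_of_chk h)
    (show dcs.all Dc.chk = true by decide +kernel)

noncomputable def treeS : T :=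
 (.node 0x1 (.node 0x0 (.node 0xa (.node 0x19 .nil (.node 0x22 .nil (.node 0x2c .nil .nil))) (.node 0xe (.node 0x2d .nil .nil) (.node 0x13 .nil (.node 0x1a .nil (.node 0x23 .nil (.node 0x2e .nil .nil)))))) (.node 0x5 (.node 0x14 .nil (.node 0x1b .nil (.node 0x24 .nil (.node 0x2f .nil .nil)))) (.node 0x7 (.node 0x25 .nil (.node 0x30 .nil .nil)) (.node 0xb .nil (.node 0xf .nil (.node 0x15 .nil (.node 0x1c .nil (.node 0x26 .nil (.node 0x31 .nil .nil))))))))) (.node 0x2 (.node 0x8 (.node 0x1d .nil (.node 0x27 .nil (.node 0x32 .nil .nil))) (.node 0xc (.node 0x33 .nil .nil) (.node 0x10 .nil (.node 0x16 .nil (.node 0x1e .nil (.node 0x28 .nil (.node 0x34 .nil .nil))))))) (.node 0x3 (.node 0x11 .nil (.node 0x17 .nil (.node 0x1f .nil (.node 0x29 .nil (.node 0x35 .nil .nil))))) (.node 0x4 (.node 0x20 .nil (.node 0x2a .nil (.node 0x36 .nil .nil)))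 (.node 0x6 (.node 0x37 .nil .nil) (.node 0x9 .nil
 (.node 0xd .nil (.node 0x12 .nil (.node 0x18 .nil (.node 0x21 .nil (.node 0x2b .nil (.node 0x38 .nil .nil))))))))))))

theorem treeS_ok : chkSm dcs treeS [] 0 3 = true := by decide +kernel

theorem t6_vm : Vm t6 := by
  have h : withD dcs 56 (fun d => same d.F [3, 3, 3, 3, 3, 3]) = true := by decide +kernel
  obtain ⟨d, hd, h⟩ := withD_spec dcs_valid h
  rw [coe_eq_of_same h] at hd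
  exact hd

end Pool.Agent.VMT
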