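import Pool.Agent.Lib.VMT.Data.Tree1
import Pool.Agent.Lib.VMT.Data.Tree2
import Pool.Agent.Lib.VMT.Data.Direct

/-! # VMT.Data.Final : all multisets of lengths -/

set_option autoImplicit false

namespace Pool.Agent.VMT

private theorem mk_of {S : List ℕ} {n j : ℕ} (hn : n ≠ 0)
    (h : withS sds j (kB S n) = true) : Mk (S : Multiset ℕ) n := by
  obtain ⟨d, hd, h⟩ := withS_spec sds_valid h
  simp only [kB, Bool.and_eq_true] at h
  have a1 := Nat.eq_of_beq_eq_true h.1
  have := (hd.hM (by omega)).mk
  rwa [a1, coe_eq_of_same h.2] at this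

private theorem lg_27_0 : Mk (([] : List ℕ) : Multiset ℕ) 27 :=
  mk_of (j := 1328) (by norm_num) (by decide +kernel)

private theorem lg_28_0 : Mk (([] : List ℕ) : Multiset ℕ) 28 :=
  mk_of (j := 1580) (by norm_num) (by decide +kernel)

private theorem lg_29_0 : Mk (([] : List ℕ) : Multiset ℕ) 29 :=
  mk_of (j := 1889) (by norm_num) (by decide +kernel)

private theorem lg_30_0 : Mk (([] : List ℕ) : Multiset ℕ) 30 :=
  mk_of (j := 2264) (by norm_num) (by decide +kernel)

private theorem lg_31_0 : Mk (([] : List ℕ) : Multiset ℕ) 31 :=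
  mk_of (j := 2723) (by norm_num) (by decide +kernel)

private theorem lg_32_0 : Mk (([] : List ℕ) : Multiset ℕ) 32 :=
  mk_of (j := 3278) (by norm_num) (by decide +kernel)

private theorem lg_27_3 : Mk (([3] : List ℕ) : Multiset ℕ) 27 :=
  mk_of (j := 2263) (by norm_num) (by decide +kernel)

private theorem lg_28_3 : Mk (([3] : List ℕ) : Multiset ℕ) 28 :=
  mk_of (j := 2722) (by norm_num) (by decide +kernel)

private theorem lg_29_3 : Mk (([3] : List ℕ) : Multiset ℕ) 29 :=
  mk_of (j := 3277) (by norm_num) (by decide +kernel)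

private theorem lg_27_4 : Mk (([4] : List ℕ) : Multiset ℕ) 27 :=
  mk_of (j := 2721) (by norm_num) (by decide +kernel)

private theorem lg_28_4 : Mk (([4] : List ℕ) : Multiset ℕ) 28 :=
  mk_of (j := 3276) (by norm_num) (by decide +kernel)

private theorem lg_27_5 : Mk (([5] : List ℕ) : Multiset ℕ) 27 :=
  mk_of (j := 3275) (by norm_num) (by decide +kernel)

theorem bp18 : BP 18 0 := by
  have h : withB blks 407 (fun B => Nat.beq B.ty 1 && (Nat.beq B.a 18 && leq B.E [])) = true := by
    decide +kernel
  obtain ⟨B, hB, h⟩ := withB_spec blks_valid h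
  simp only [Bool.and_eq_true] at h
  obtain ⟨h1, h2, h3⟩ := h
  have := hB.hP (Nat.eq_of_beq_eq_true h1)
  rwa [Nat.eq_of_beq_eq_true h2, eq_of_leq h3] at this

theorem long : Long := by
  refine ⟨bp18, ?_⟩
  intro F n hP h27 hs
  have h0 : F = 0 ∨ ∃ x : ℕ, F = {x} := by
    by_cases h : F = 0
    · exact Or.inl h
    · right
      obtain ⟨x, hx⟩ := Multiset.exists_mem_of_ne_zero h
      obtain ⟨F', rfl⟩ := Multiset.exists_cons_of_mem hx
      have h1 := hP x hx
      rw [Multiset.sum_cons] at hs
      by_cases h2 : F' = 0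
      · exact ⟨x, by rw [h2]; rfl⟩
      · exfalso
        obtain ⟨y, hy⟩ := Multiset.exists_mem_of_ne_zero h2
        have h3 := hP y (Multiset.mem_cons_of_mem hy)
        have h4 : y ≤ F'.sum := Multiset.single_le_sum (fun _ _ => Nat.zero_le _) y hy
        omega
  rcases h0 with rfl | ⟨x, rfl⟩
  · rw [Multiset.sum_zero] at hs
    have h32 : n ≤ 32 := by omega
    interval_cases n
    · exact lg_27_0
    · exact lg_28_0
    · exact lg_29_0
    · exact lg_30_0
    · exact lg_31_0
    · exact lg_32_0
  · have hx := hP x (Multiset.mem_singleton_self x)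
    rw [Multiset.sum_singleton] at hs
    have hx5 : x ≤ 5 := by omega
    interval_cases x
    · have h32 : n ≤ 29 := by omega
      interval_cases n
      · exact lg_27_3
      · exact lg_28_3
      · exact lg_29_3
    · have h32 : n ≤ 28 := by omega
      interval_cases n
      · exact lg_27_4
      · exact lg_28_4
    · have h32 : n ≤ 27 := by omega
      interval_cases n
      exact lg_27_5

/-- every multiset of lengths except two triangles -/
theorem all_vm (F : Multiset ℕ) (hP : Pt F) (hne : F ≠ {3, 3}) : Vm F := by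
  rcases Nat.lt_or_ge 14 F.sum with h | h
  · by_cases h6 : F = t6
    · rw [h6]
      exact t6_vm
    · exact (all_um (fun F n hP h9 h26 h15 =>
        chkRoot_spec blks_valid sds_valid tree2_ok hP h9 h26 h15)
        (fun G hP h15 h6 => chkU_root blks_valid sds_valid tree1_ok hP h15 h6) long hP h h6).vm
  · exact small_vm dcs_valid treeS_ok hP h hne

end Pool.Agent.VMT
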