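import Pool.Agent.Lib.VMT.Data.Seeds00
import Pool.Agent.Lib.VMT.Data.Seeds01
import Pool.Agent.Lib.VMT.Data.Seeds02
import Pool.Agent.Lib.VMT.Data.Seeds03
import Pool.Agent.Lib.VMT.Data.Seeds04
import Pool.Agent.Lib.VMT.Data.Seeds05
import Pool.Agent.Lib.VMT.Data.Seeds06
import Pool.Agent.Lib.VMT.Data.Seeds07
import Pool.Agent.Lib.VMT.Data.Seeds08
import Pool.Agent.Lib.VMT.Data.Seeds09
import Pool.Agent.Lib.VMT.Data.Seeds10
import Pool.Agent.Lib.VMT.Data.Seeds11
import Pool.Agent.Lib.VMT.Data.Seeds12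
import Pool.Agent.Lib.VMT.Data.Seeds13
import Pool.Agent.Lib.VMT.Data.Seeds14
import Pool.Agent.Lib.VMT.Data.Seeds15
import Pool.Agent.Lib.VMT.Data.Seeds16
import Pool.Agent.Lib.VMT.Data.Seeds17
import Pool.Agent.Lib.VMT.Data.Seeds18
import Pool.Agent.Lib.VMT.Data.Seeds19
import Pool.Agent.Lib.VMT.Data.Seeds20
import Pool.Agent.Lib.VMT.Data.Seeds21
import Pool.Agent.Lib.VMT.Data.Seeds22
import Pool.Agent.Lib.VMT.Data.Seeds23
import Pool.Agent.Lib.VMT.Data.Seeds24
import Pool.Agent.Lib.VMT.Data.Seeds25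
import Pool.Agent.Lib.VMT.Data.Seeds26
import Pool.Agent.Lib.VMT.Data.Seeds27
import Pool.Agent.Lib.VMT.Data.Seeds28
import Pool.Agent.Lib.VMT.Data.Seeds29
import Pool.Agent.Lib.VMT.Data.Seeds30
import Pool.Agent.Lib.VMT.Data.Seeds31

/-! # VMT.Data.Seeds : the seeds -/

set_option autoImplicit false
set_option maxRecDepth 100000

namespace Pool.Agent.VMT

noncomputable def sds : BT Sd :=
 .node (.node (.node (.node (.node (sds00)
 (sds16))
 (.node (sds08)
 (sds24)))
 (.node (.node (sds04)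
 (sds20))
 (.node (sds12)
 (sds28))))
 (.node (.node (.node (sds02)
 (sds18))
 (.node (sds10)
 (sds26)))
 (.node (.node (sds06)
 (sds22))
 (.node (sds14)
 (sds30)))))
 (.node (.node (.node (.node (sds01)
 (sds17))
 (.node (sds09)
 (sds25)))
 (.node (.node (sds05)
 (sds21))
 (.node (sds13)
 (sds29))))
 (.node (.node (.node (sds03)
 (sds19))
 (.node (sds11)
 (sds27)))
 (.node (.node (sds07)
 (sds23))
 (.node (sds15)
 (sds31)))))

theorem sds_valid : sds.All Sd.Valid :=
 (BT.All.node (BT.All.node (BT.All.node (BT.All.node (BT.All.node sds00_valid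
 sds16_valid)
 (BT.All.node sds08_valid
 sds24_valid))
 (BT.All.node (BT.All.node sds04_valid
 sds20_valid)
 (BT.All.node sds12_valid
 sds28_valid)))
 (BT.All.node (BT.All.node (BT.All.node sds02_valid
 sds18_valid)
 (BT.All.node sds10_valid
 sds26_valid))
 (BT.All.node (BT.All.node sds06_valid
 sds22_valid)
 (BT.All.node sds14_valid
 sds30_valid))))
 (BT.All.node (BT.All.node (BT.All.node (BT.All.node sds01_valid
 sds17_valid)
 (BT.All.node sds09_valid
 sds25_valid))
 (BT.All.node (BT.All.node sds05_valid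
 sds21_valid)
 (BT.All.node sds13_valid
 sds29_valid)))
 (BT.All.node (BT.All.node (BT.All.node sds03_valid
 sds19_valid)
 (BT.All.node sds11_valid
 sds27_valid))
 (BT.All.node (BT.All.node sds07_valid
 sds23_valid)
 (BT.All.node sds15_valid
 sds31_valid)))))

end Pool.Agent.VMT
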