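import Pool.Agent.Lib.VMT.TreeU
import Pool.Agent.Lib.VMT.Data.Blocks
import Pool.Agent.Lib.VMT.Data.Seeds

/-! # VMT.Data.Tree1 : the tree of the unmarked case (data) -/

set_option autoImplicit false
set_option maxRecDepth 100000

namespace Pool.Agent.VMT

noncomputable def tree1 : T :=
 (.node 0x5 (.node 0x5 (.node 0x5 (.node 0x5 (.node 0x3400001 (.node 0x5 (.node 0x44800001 (.node 0x66600001 (.node 0xa6200001 (.node 0x11b200001 (.node 0x7a (.node 0x23ca00001 (.node 0x78 .nil (.node 0x78 .nil (.node 0x78 .nil (.node 0x78 .nil (.node 0x78 .nil (.node 0x78 .nil .nil)))))) (.node 0x78 .nil (.node 0x78 .nil (.node 0x78 .nil (.node 0x78 .nil (.node 0x78 .nil .nil)))))) (.node 0x78 .nil (.node 0x78 .nil (.node 0x78 .nil (.node 0x78 .nil (.node 0x78 .nil .nil)))))) (.node 0x154800001 (.node 0x78 .nil (.node 0x78 .nil (.node 0x78 .nil (.node 0x78 .nil (.node 0x78 .nil .nil))))) (.node 0x199e00001 (.node 0x78 .nil (.node 0x78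 .nil (.node 0x78 .nil (.node 0x78 .nil .nil)))) (.node 0x78 .nil (.node 0x78 .nil (.node 0x78 .nil .nil)))))) (.node 0xc5a00001 (.node 0x19a000001 (.node 0x78 .nil (.node 0x78 .nil (.node 0x78 .nil (.node 0x78 .nil (.node 0x78 .nil .nil))))) (.node 0x78
 .nil (.node 0x78 .nil (.node 0x78 .nil (.node 0x78 .nil .nil))))) (.node 0xec400001 (.node 0x78 .nil (.node 0x78 .nil (.node 0x78 .nil (.node 0x78 .nil .nil)))) (.node 0x11b400001 (.node 0x78 .nil (.node 0x78 .nil (.node 0x78 .nil .nil))) (.node 0x154a00001 (.node 0x78 .nil (.node 0x78 .nil .nil)) (.node 0x19a200001 (.node 0x78 .nil .nil) .nil)))))) (.node 0x77a00001 (.node 0xec600001 (.node 0x78 .nil (.node 0x78 .nil (.node 0x78 .nil (.node 0x78 .nil (.node 0x78 .nil .nil))))) (.node 0x11b600001 (.node 0x78 .nil (.node 0x78 .nil (.node 0x78 .nil (.node 0x78 .nil .nil)))) (.node 0x154c00001 (.node 0x78 .nil (.node 0x78 .nil (.node 0x78 .nil .nil))) (.node 0x19a400001 (.node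 0x78 .nil (.node 0x78 .nil .nil)) (.node 0x78 .nil .nil))))) (.node 0x8c600001 (.node 0x154e00001 (.node 0x78 .nil (.node 0x78 .nil (.node 0x78 .nil (.node 0x78 .nil .nil)))) (.node 0x19a600001 (.node 0x78 .nil (.node
 0x78 .nil (.node 0x78 .nil .nil))) (.node 0x78 .nil (.node 0x78 .nil .nil)))) (.node 0xa6400001 (.node 0x78 .nil (.node 0x78 .nil (.node 0x78 .nil .nil))) (.node 0xc5c00001 (.node 0x78 .nil (.node 0x78 .nil .nil)) (.node 0xec800001 (.node 0x78 .nil .nil) .nil)))))) (.node 0x4d800001 (.node 0x8c800001 (.node 0x11b800001 (.node 0x78 .nil (.node 0x78 .nil (.node 0x78 .nil (.node 0x78 .nil (.node 0x78 .nil .nil))))) (.node 0x155000001 (.node 0x78 .nil (.node 0x78 .nil (.node 0x78 .nil (.node 0x78 .nil .nil)))) (.node 0x19a800001 (.node 0x78 .nil (.node 0x78 .nil (.node 0x78 .nil .nil))) (.node 0x78 .nil (.node 0x78 .nil .nil))))) (.node 0xa6600001 (.node 0x19aa00001 (.node 0x78 .nil (.node 0x78 .nil (.node 0x78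 .nil (.node 0x78 .nil .nil)))) (.node 0x78 .nil (.node 0x78 .nil (.node 0x78 .nil .nil)))) (.node 0xc5e00001 (.node 0x78 .nil (.node 0x78 .nil (.node 0x78 .nil .nil))) (.node
 0xeca00001 (.node 0x78 .nil (.node 0x78 .nil .nil)) (.node 0x11ba00001 (.node 0x78 .nil .nil) .nil))))) (.node 0x58a00001 (.node 0xc6000001 (.node 0x78 .nil (.node 0x78 .nil (.node 0x78 .nil (.node 0x78 .nil .nil)))) (.node 0xecc00001 (.node 0x78 .nil (.node 0x78 .nil (.node 0x78 .nil .nil))) (.node 0x11bc00001 (.node 0x78 .nil (.node 0x78 .nil .nil)) (.node 0x155200001 (.node 0x78 .nil .nil) .nil)))) (.node 0x66800001 (.node 0x11be00001 (.node 0x78 .nil (.node 0x78 .nil (.node 0x78 .nil .nil))) (.node 0x155400001 (.node 0x78 .nil (.node 0x78 .nil .nil)) (.node 0x19ac00001 (.node 0x78 .nil .nil) .nil))) (.node 0x77c00001 (.node 0x19ae00001 (.node 0x78 .nil (.node 0x78 .nil .nil)) (.node 0x78 .nil .nil)) (.node 0x8ca00001 (.node 0x78 .nil .nil) .nil))))))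 (.node 0x2b800001 (.node 0x58c00001 (.node 0xa6800001 (.node 0x155600001 (.node 0x210600001 (.node 0xa0 .nil (.node 0xa0 .nil (.node
 0xa0 .nil (.node 0xa0 .nil (.node 0xa0 .nil .nil))))) (.node 0x23cc00001 (.node 0xa0 .nil (.node 0xa0 .nil (.node 0xa0 .nil (.node 0xa0 .nil .nil)))) (.node 0x26ca00001 (.node 0xa0 .nil (.node 0xa0 .nil (.node 0x398 .nil .nil))) (.node 0x29f800001 (.node 0xa0 .nil (.node 0xa0 .nil .nil)) (.node 0xa0 .nil .nil))))) (.node 0x19b000001 (.node 0x26cc00001 (.node 0xa0 .nil (.node 0xa0 .nil (.node 0xa0 .nil (.node 0xa0 .nil .nil)))) (.node 0x29fa00001 (.node 0xa0 .nil (.node 0xa0 .nil (.node 0x398 .nil .nil))) (.node 0xa0 .nil (.node 0xa0 .nil .nil)))) (.node 0x1c3800001 (.node 0xa0 .nil (.node 0xa0 .nil (.node 0x398 .nil .nil))) (.node 0x1e9800001 (.node 0xa0 .nil (.node 0xa0 .nil .nil)) (.node 0x210800001 (.node 0xa0 .nil .nil) .nil))))) (.node 0xc6200001 (.node 0x1c3a00001 (.node 0x29fc00001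 (.node 0xc0 .nil (.node 0xc0 .nil (.node 0xc0 .nil (.node 0xc0 .nil .nil)))) (.node 0xc0 .nil (.node
 0xc0 .nil (.node 0xc0 .nil .nil)))) (.node 0x1e9a00001 (.node 0xb0 .nil (.node 0x148 .nil (.node 0x398 .nil .nil))) (.node 0x210a00001 (.node 0xd0 .nil (.node 0xa8 .nil .nil)) (.node 0x23ce00001 (.node 0xa8 .nil .nil) .nil)))) (.node 0xece00001 (.node 0x210c00001 (.node 0x4e8 .nil (.node 0xb0 .nil (.node 0x398 .nil .nil))) (.node 0x23d000001 (.node 0x148 .nil (.node 0x398 .nil .nil)) (.node 0x398 .nil .nil))) (.node 0x11c000001 (.node 0x26ce00001 (.node 0xd0 .nil (.node 0xd0 .nil .nil)) (.node 0x29fe00001 (.node 0xa8 .nil .nil) .nil)) (.node 0x155800001 (.node 0xa8 .nil .nil) .nil))))) (.node 0x66a00001 (.node 0xed000001 (.node 0x1e9c00001 (.node 0x2b0400001 (.node 0x2bee00001 (.node 0x2cd600001 (.node 0x5a8 .nil (.node 0x90 .nil (.node 0x160 .nil (.node 0xa8 .nil .nil)))) (.node 0x90 .nil (.node 0x160 .nil (.node 0xa8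 .nil .nil)))) (.node 0x90 .nil (.node 0x160 .nil (.node 0xa8 .nil
 .nil)))) (.node 0x2b3e00001 (.node 0xb0 .nil (.node 0x160 .nil (.node 0x398 .nil .nil))) (.node 0x160 .nil (.node 0xa8 .nil .nil)))) (.node 0x210e00001 (.node 0xb0 .nil (.node 0x160 .nil (.node 0x398 .nil .nil))) (.node 0x23d200001 (.node 0x160 .nil (.node 0x160 .nil .nil)) (.node 0x26d000001 (.node 0xa8 .nil .nil) .nil)))) (.node 0x11c200001 (.node 0x23d400001 (.node 0x4e8 .nil (.node 0xb0 .nil (.node 0x398 .nil .nil))) (.node 0x26d200001 (.node 0xe8 .nil (.node 0x398 .nil .nil)) (.node 0x398 .nil .nil))) (.node 0x155a00001 (.node 0x2a0000001 (.node 0xd0 .nil (.node 0xd0 .nil .nil)) (.node 0xa8 .nil .nil)) (.node 0x19b200001 (.node 0xa8 .nil .nil) .nil)))) (.node 0x77e00001 (.node 0x155c00001 (.node 0x4e8 .nil (.node 0x2a0200001 (.node 0xb0 .nil (.node 0x398 .nil .nil)) (.node 0x398 .nil .nil))) (.node 0x19b400001 (.node 0xd0 .nil (.node 0x398 .nil .nil))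 (.node 0x39a (.node 0x398 .nil
 .nil) .nil))) (.node 0x8cc00001 (.node 0x1c3c00001 (.node 0xd0 .nil (.node 0xd0 .nil .nil)) (.node 0x1e9e00001 (.node 0xa8 .nil .nil) .nil)) (.node 0xa6a00001 (.node 0x211000001 (.node 0xa8 .nil .nil) .nil) .nil))))) (.node 0x3d200001 (.node 0x78000001 (.node 0x11c400001 (.node 0x211200001 (.node 0x2b4000001 (.node 0x2c2200001 (.node 0x2ce800001 (.node 0x5b0 .nil (.node 0x5b0 .nil (.node 0x1b0 .nil (.node 0xe0 .nil .nil)))) (.node 0x5b0 .nil (.node 0x1b0 .nil (.node 0xe0 .nil .nil)))) (.node 0x2c4400001 (.node 0xb0 .nil (.node 0xe8 .nil (.node 0xe0 .nil .nil))) (.node 0x1b0 .nil (.node 0xe0 .nil .nil)))) (.node 0x2b7600001 (.node 0xb0 .nil (.node 0xe8 .nil (.node 0xe0 .nil .nil))) (.node 0x2ba200001 (.node 0x480 .nil (.node 0xe0 .nil .nil)) (.node 0xe0 .nil .nil)))) (.node 0x23d600001 (.node 0xb0 .nil (.node 0xe8 .nil (.node 0xe0 .nil .nil))) (.node 0x26d400001 (.node 0x480 .nil (.node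
 0xe0 .nil .nil)) (.node 0x2a0400001 (.node 0xe0 .nil .nil) .nil)))) (.node 0x155e00001 (.node 0x26d600001 (.node 0x4e8 .nil (.node 0xb0 .nil (.node 0xb0 .nil .nil))) (.node 0x2a0600001 (.node 0xe8 .nil (.node 0xe8 .nil .nil)) (.node 0xe0 .nil .nil))) (.node 0x19b600001 (.node 0x482 (.node 0x480 .nil (.node 0x480 .nil .nil)) (.node 0xe0 .nil .nil)) (.node 0x1c3e00001 (.node 0xe0 .nil .nil) .nil)))) (.node 0x8ce00001 (.node 0x19b800001 (.node 0x4e8 .nil (.node 0xb0 .nil (.node 0xb0 .nil .nil))) (.node 0x1c4000001 (.node 0xe8 .nil (.node 0xe8 .nil .nil)) (.node 0x1ea000001 (.node 0x1f0 .nil .nil) .nil))) (.node 0xa6c00001 (.node 0x1ea200001 (.node 0x220 .nil (.node 0x16401e64 (.node 0x1f0 .nil .nil) .nil)) (.node 0x211400001 (.node 0x1f0 .nil .nil) .nil)) (.node 0xc6400001 (.node 0x23d800001 (.node 0x1f0 .nil .nil) .nil) .nil)))) (.node 0x44a00001 (.node 0xa6e00001 (.node 0x4ea (.node 0x4e8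
 .nil (.node 0x4e8 .nil (.node 0x4e8 .nil .nil))) (.node 0x1ea400001 (.node 0xb0 .nil (.node 0xb0 .nil .nil)) (.node 0x211600001 (.node 0xb0 .nil .nil) .nil))) (.node 0xc6600001 (.node 0x211800001 (.node 0x220 .nil (.node 0x208 .nil .nil)) (.node 0x23da00001 (.node 0x208 .nil .nil) .nil)) (.node 0xed200001 (.node 0x26d800001 (.node 0x578 .nil .nil) .nil) .nil))) (.node 0x4da00001 (.node 0xed400001 (.node 0x23dc00001 (.node 0x220 .nil (.node 0x220 .nil .nil)) (.node 0x26da00001 (.node 0x98 .nil .nil) .nil)) (.node 0x11c600001 (.node 0x2a0800001 (.node 0x578 .nil .nil) .nil) .nil)) (.node 0x58e00001 (.node 0x156000001 (.node 0x57a (.node 0x578 .nil .nil) .nil) .nil) .nil)))))) (.node 0x9c00001 (.node 0x3d400001 (.node 0x66c00001 (.node 0xc6800001 (.node 0x19ba00001 (.node 0x23de00001 (.node 0xa0 .nil (.node 0xa0 .nil (.node 0xa0 .nil (.node 0xa0 .nil (.node 0xa0 .nil .nil))))) (.node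
 0x26dc00001 (.node 0xa0 .nil (.node 0xa0 .nil (.node 0xa0 .nil (.node 0xa0 .nil .nil)))) (.node 0x2a0a00001 (.node 0xa0 .nil (.node 0xa0 .nil (.node 0x398 .nil .nil))) (.node 0xa0 .nil (.node 0xa0 .nil .nil))))) (.node 0x1c4200001 (.node 0x2a0c00001 (.node 0xa0 .nil (.node 0xa0 .nil (.node 0xa0 .nil (.node 0xa0 .nil .nil)))) (.node 0xa0 .nil (.node 0xa0 .nil (.node 0xa0 .nil .nil)))) (.node 0x1ea600001 (.node 0xa0 .nil (.node 0xa0 .nil (.node 0x398 .nil .nil))) (.node 0x211a00001 (.node 0xa0 .nil (.node 0xa0 .nil .nil)) (.node 0x23e000001 (.node 0xa0 .nil .nil) .nil))))) (.node 0xed600001 (.node 0x1ea800001 (.node 0xa0 .nil (.node 0xa0 .nil (.node 0xa0 .nil (.node 0xa0 .nil .nil)))) (.node 0x211c00001 (.node 0xa0 .nil (.node 0xa0 .nil (.node 0x398 .nil .nil))) (.node 0x23e200001 (.node 0xa0 .nil (.node 0xa0 .nil .nil)) (.node 0x26de00001 (.node 0xa0 .nil .nil) .nil)))) (.node 0x11c800001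
 (.node 0x23e400001 (.node 0x4e8 .nil (.node 0xa0 .nil (.node 0x398 .nil .nil))) (.node 0x26e000001 (.node 0xa0 .nil (.node 0x398 .nil .nil)) (.node 0x398 .nil .nil))) (.node 0x156200001 (.node 0x2a0e00001 (.node 0xa0 .nil (.node 0xa0 .nil .nil)) (.node 0xa0 .nil .nil)) (.node 0x19bc00001 (.node 0xa0 .nil .nil) .nil))))) (.node 0x78200001 (.node 0x11ca00001 (.node 0x211e00001 (.node 0xc0 .nil (.node 0xc0 .nil (.node 0xc0 .nil (.node 0xc0 .nil .nil)))) (.node 0x23e600001 (.node 0xc0 .nil (.node 0xc0 .nil (.node 0x398 .nil .nil))) (.node 0x26e200001 (.node 0xc0 .nil (.node 0xc0 .nil .nil)) (.node 0x2a1000001 (.node 0xc0 .nil .nil) .nil)))) (.node 0x156400001 (.node 0x26e400001 (.node 0x4e8 .nil (.node 0xb0 .nil (.node 0x398 .nil .nil))) (.node 0x2a1200001 (.node 0x148 .nil (.node 0x398 .nil .nil)) (.node 0x398 .nil .nil))) (.node 0x19be00001 (.node 0xd0 .nil (.node 0xa8 .nil .nil)) (.node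
 0x1c4400001 (.node 0xa8 .nil .nil) .nil)))) (.node 0x8d000001 (.node 0x19c000001 (.node 0x4e8 .nil (.node 0xb0 .nil (.node 0x398 .nil .nil))) (.node 0x1c4600001 (.node 0x148 .nil (.node 0x398 .nil .nil)) (.node 0x398 .nil .nil))) (.node 0xa7000001 (.node 0x1eaa00001 (.node 0xd0 .nil (.node 0xd0 .nil .nil)) (.node 0x212000001 (.node 0xa8 .nil .nil) .nil)) (.node 0xc6a00001 (.node 0x23e800001 (.node 0xa8 .nil .nil) .nil) .nil))))) (.node 0x44c00001 (.node 0x8d200001 (.node 0x156600001 (.node 0x23ea00001 (.node 0x2b7800001 (.node 0x2c4600001 (.node 0x5a8 .nil (.node 0x358 .nil (.node 0x160 .nil (.node 0xa8 .nil .nil)))) (.node 0x358 .nil (.node 0x160 .nil (.node 0xa8 .nil .nil)))) (.node 0x2ba400001 (.node 0xb0 .nil (.node 0x160 .nil (.node 0x398 .nil .nil))) (.node 0x160 .nil (.node 0xa8 .nil .nil)))) (.node 0x26e600001 (.node 0xb0 .nil (.node 0x160 .nil (.node 0x398 .nil .nil))) (.node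
 0x2a1400001 (.node 0x160 .nil (.node 0x160 .nil .nil)) (.node 0xa8 .nil .nil)))) (.node 0x19c200001 (.node 0x2a1600001 (.node 0x4e8 .nil (.node 0xb0 .nil (.node 0x398 .nil .nil))) (.node 0x160 .nil (.node 0x398 .nil .nil))) (.node 0x1c4800001 (.node 0x160 .nil (.node 0x160 .nil .nil)) (.node 0x1eac00001 (.node 0xa8 .nil .nil) .nil)))) (.node 0xa7200001 (.node 0x1c4a00001 (.node 0x4e8 .nil (.node 0xb0 .nil (.node 0x398 .nil .nil))) (.node 0x1eae00001 (.node 0xe8 .nil (.node 0x398 .nil .nil)) (.node 0x398 .nil .nil))) (.node 0xc6c00001 (.node 0x212200001 (.node 0xd0 .nil (.node 0xd0 .nil .nil)) (.node 0x23ec00001 (.node 0xa8 .nil .nil) .nil)) (.node 0xed800001 (.node 0x26e800001 (.node 0xa8 .nil .nil) .nil) .nil)))) (.node 0x4dc00001 (.node 0xc6e00001 (.node 0x4e8 .nil (.node 0x212400001 (.node 0xb0 .nil (.node 0x398 .nil .nil)) (.node 0x398 .nil .nil))) (.node 0xeda00001 (.node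
 0x23ee00001 (.node 0xd0 .nil (.node 0x398 .nil .nil)) (.node 0x398 .nil .nil)) (.node 0x11cc00001 (.node 0x398 .nil .nil) .nil))) (.node 0x59000001 (.node 0x11ce00001 (.node 0x1fa01e8c (.node 0xd0 .nil (.node 0xd0 .nil .nil)) (.node 0x31201e8c (.node 0xd0 .nil .nil) .nil)) (.node 0x156800001 (.node 0xa8 .nil .nil) .nil)) (.node 0x66e00001 (.node 0x19c400001 (.node 0xa8 .nil .nil) .nil) .nil))))) (.node 0x12800001 (.node 0x4de00001 (.node 0xa7400001 (.node 0x19c600001 (.node 0x26ea00001 (.node 0x2ba600001 (.node 0x2c7c00001 (.node 0x5b0 .nil (.node 0x5b0 .nil (.node 0x1b0 .nil (.node 0xe0 .nil .nil)))) (.node 0x2cba00001 (.node 0xb0 .nil (.node 0xe8 .nil (.node 0xe0 .nil .nil))) (.node 0x1b0 .nil (.node 0xe0 .nil .nil)))) (.node 0x2bc200001 (.node 0xb0 .nil (.node 0xe8 .nil (.node 0xe0 .nil .nil))) (.node 0x2bf000001 (.node 0x480 .nil (.node 0xe0 .nil .nil)) (.node 0xe0 .nil .nil))))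
 (.node 0x2a1800001 (.node 0xb0 .nil (.node 0xe8 .nil (.node 0xe0 .nil .nil))) (.node 0x2b0600001 (.node 0x480 .nil (.node 0xe0 .nil .nil)) (.node 0xe0 .nil .nil)))) (.node 0x1c4c00001 (.node 0xb0 .nil (.node 0xe8 .nil (.node 0xe0 .nil .nil))) (.node 0x1eb000001 (.node 0x480 .nil (.node 0xe0 .nil .nil)) (.node 0x212600001 (.node 0xe0 .nil .nil) .nil)))) (.node 0xc7000001 (.node 0x1eb200001 (.node 0x4e8 .nil (.node 0xb0 .nil (.node 0xb0 .nil .nil))) (.node 0x212800001 (.node 0xe8 .nil (.node 0xe8 .nil .nil)) (.node 0x23f000001 (.node 0xe0 .nil .nil) .nil))) (.node 0xedc00001 (.node 0x23f200001 (.node 0x480 .nil (.node 0x480 .nil .nil)) (.node 0x26ec00001 (.node 0xe0 .nil .nil) .nil)) (.node 0x11d000001 (.node 0x2a1a00001 (.node 0xe0 .nil .nil) .nil) .nil)))) (.node 0x59200001 (.node 0xede00001 (.node 0x4e8 .nil (.node 0x23f400001 (.node 0xb0 .nil (.node 0xb0 .nil .nil)) (.node 0x26ee00001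
 (.node 0xb0 .nil .nil) .nil))) (.node 0x11d200001 (.node 0x26f000001 (.node 0xe8 .nil (.node 0xe8 .nil .nil)) (.node 0x2e001eb4 (.node 0xe8 .nil .nil) .nil)) (.node 0x156a00001 (.node 0x1f0 .nil .nil) .nil))) (.node 0x67000001 (.node 0x156c00001 (.node 0x2e001e8c (.node 0x220 .nil (.node 0x220 .nil .nil)) (.node 0x601e64 (.node 0x1f0 .nil .nil) .nil)) (.node 0x19c800001 (.node 0x1f0 .nil .nil) .nil)) (.node 0x78400001 (.node 0x1c4e00001 (.node 0x1f0 .nil .nil) .nil) .nil)))) (.node 0x1d800001 (.node 0x67200001 (.node 0x11d400001 (.node 0x4e8 .nil (.node 0x4e8 .nil (.node 0x4e8 .nil .nil))) (.node 0x156e00001 (.node 0x2a1c00001 (.node 0xb0 .nil (.node 0xb0 .nil .nil)) (.node 0xb0 .nil .nil)) (.node 0x19ca00001 (.node 0xb0 .nil .nil) .nil))) (.node 0x78600001 (.node 0x19cc00001 (.node 0x220 .nil (.node 0x208 .nil .nil)) (.node 0x1c5000001 (.node 0x208 .nil .nil) .nil)) (.node 0x8d400001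
 (.node 0x1eb400001 (.node 0x578 .nil .nil) .nil) .nil))) (.node 0x2ba00001 (.node 0x8d600001 (.node 0x1c5200001 (.node 0x220 .nil (.node 0x220 .nil .nil)) (.node 0x1eb600001 (.node 0x16801e64 (.node 0x578 .nil .nil) .nil) .nil)) (.node 0xa7600001 (.node 0x212a00001 (.node 0x578 .nil .nil) .nil) .nil)) (.node 0x3d600001 (.node 0xc7200001 (.node 0x23f600001 (.node 0x578 .nil .nil) .nil) .nil) .nil)))))) (.node 0x5 (.node 0x12a00001 (.node 0x44e00001 (.node 0x78800001 (.node 0xee000001 (.node 0x1c5400001 (.node 0x26f200001 (.node 0x290 .nil (.node 0x290 .nil (.node 0x290 .nil (.node 0x290 .nil (.node 0x290 .nil .nil))))) (.node 0x2a1e00001 (.node 0x290 .nil (.node 0x290 .nil (.node 0x290 .nil (.node 0x290 .nil .nil)))) (.node 0x290 .nil (.node 0x290 .nil (.node 0x290 .nil .nil))))) (.node 0x1eb800001 (.node 0xc0 .nil (.node 0x2b4200001 (.node 0x2c8 .nil (.node 0x2c0 .nil (.node 0x398 .nil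
 .nil))) (.node 0x2c0 .nil (.node 0x2b0 .nil .nil)))) (.node 0x212c00001 (.node 0x2c8 .nil (.node 0x148 .nil (.node 0x398 .nil .nil))) (.node 0x23f800001 (.node 0xd0 .nil (.node 0x2b0 .nil .nil)) (.node 0x26f400001 (.node 0x2b0 .nil .nil) .nil))))) (.node 0x11d600001 (.node 0x212e00001 (.node 0xc0 .nil (.node 0xc0 .nil (.node 0xc0 .nil (.node 0xc0 .nil .nil)))) (.node 0x23fa00001 (.node 0x2c8 .nil (.node 0x2c0 .nil (.node 0x398 .nil .nil))) (.node 0x26f600001 (.node 0x2c0 .nil (.node 0x2c0 .nil .nil)) (.node 0x2a2000001 (.node 0x2b0 .nil .nil) .nil)))) (.node 0x157000001 (.node 0x26f800001 (.node 0x4e8 .nil (.node 0x2c8 .nil (.node 0x398 .nil .nil))) (.node 0x2a2200001 (.node 0x148 .nil (.node 0x398 .nil .nil)) (.node 0x398 .nil .nil))) (.node 0x19ce00001 (.node 0xd0 .nil (.node 0x2b0 .nil .nil)) (.node 0x1c5600001 (.node 0x2b0 .nil .nil) .nil))))) (.node 0x8d800001 (.node 0x157200001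
 (.node 0x23fc00001 (.node 0xc0 .nil (.node 0xc0 .nil (.node 0xc0 .nil (.node 0xc0 .nil .nil)))) (.node 0x26fa00001 (.node 0xc0 .nil (.node 0xc0 .nil (.node 0x398 .nil .nil))) (.node 0x2a2400001 (.node 0xc0 .nil (.node 0xc0 .nil .nil)) (.node 0xc0 .nil .nil)))) (.node 0x19d000001 (.node 0x2a2600001 (.node 0x4e8 .nil (.node 0x2c8 .nil (.node 0x398 .nil .nil))) (.node 0x2c0 .nil (.node 0x398 .nil .nil))) (.node 0x1c5800001 (.node 0x2c0 .nil (.node 0x2c0 .nil .nil)) (.node 0x1eba00001 (.node 0x140 .nil .nil) .nil)))) (.node 0xa7800001 (.node 0x1c5a00001 (.node 0x4e8 .nil (.node 0x2c8 .nil (.node 0x398 .nil .nil))) (.node 0x1ebc00001 (.node 0x148 .nil (.node 0x398 .nil .nil)) (.node 0x398 .nil .nil))) (.node 0xc7400001 (.node 0x213000001 (.node 0xd0 .nil (.node 0xd0 .nil .nil)) (.node 0x23fe00001 (.node 0x318 .nil .nil) .nil)) (.node 0xee200001 (.node 0x26fc00001 (.node 0x318 .nil .nil) .nil)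
 .nil))))) (.node 0x4e000001 (.node 0xa7a00001 (.node 0x19d200001 (.node 0x26fe00001 (.node 0xc0 .nil (.node 0xc0 .nil (.node 0xc0 .nil (.node 0xc0 .nil .nil)))) (.node 0x2a2800001 (.node 0xc0 .nil (.node 0xc0 .nil (.node 0x398 .nil .nil))) (.node 0xc0 .nil (.node 0xc0 .nil .nil)))) (.node 0x1c5c00001 (.node 0xc0 .nil (.node 0xc0 .nil (.node 0x398 .nil .nil))) (.node 0x1ebe00001 (.node 0xc0 .nil (.node 0xc0 .nil .nil)) (.node 0x213200001 (.node 0xc0 .nil .nil) .nil)))) (.node 0xc7600001 (.node 0x1ec000001 (.node 0x4e8 .nil (.node 0x168 .nil (.node 0x398 .nil .nil))) (.node 0x213400001 (.node 0x148 .nil (.node 0x398 .nil .nil)) (.node 0x398 .nil .nil))) (.node 0xee400001 (.node 0x240000001 (.node 0xd0 .nil (.node 0xd0 .nil .nil)) (.node 0x270000001 (.node 0x140 .nil .nil) .nil)) (.node 0x11d800001 (.node 0x2a2a00001 (.node 0x140 .nil .nil) .nil) .nil)))) (.node 0x59400001 (.node 0xee600001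
 (.node 0x4e8 .nil (.node 0x240200001 (.node 0x148 .nil (.node 0x398 .nil .nil)) (.node 0x398 .nil .nil))) (.node 0x11da00001 (.node 0x270200001 (.node 0x148 .nil (.node 0x398 .nil .nil)) (.node 0x398 .nil .nil)) (.node 0x157400001 (.node 0x398 .nil .nil) .nil))) (.node 0x67400001 (.node 0x157600001 (.node 0x2e201e8c (.node 0xd0 .nil (.node 0xd0 .nil .nil)) (.node 0xd0 .nil .nil)) (.node 0x19d400001 (.node 0x318 .nil .nil) .nil)) (.node 0x78a00001 (.node 0x1c5e00001 (.node 0x318 .nil .nil) .nil) .nil))))) (.node 0x1da00001 (.node 0x59600001 (.node 0xc7800001 (.node 0x1c6000001 (.node 0x2a2c00001 (.node 0x2bc400001 (.node 0x2cbc00001 (.node 0x5b0 .nil (.node 0x358 .nil (.node 0x160 .nil (.node 0xe0 .nil .nil)))) (.node 0x358 .nil (.node 0x160 .nil (.node 0xe0 .nil .nil)))) (.node 0x2bf200001 (.node 0x168 .nil (.node 0x160 .nil (.node 0x398 .nil .nil))) (.node 0x160 .nil (.node 0xe0 .nil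
 .nil)))) (.node 0x2b0800001 (.node 0x168 .nil (.node 0x160 .nil (.node 0x398 .nil .nil))) (.node 0x160 .nil (.node 0xe0 .nil .nil)))) (.node 0x1ec200001 (.node 0x168 .nil (.node 0x160 .nil (.node 0x398 .nil .nil))) (.node 0x213600001 (.node 0x160 .nil (.node 0x160 .nil .nil)) (.node 0x240400001 (.node 0xe0 .nil .nil) .nil)))) (.node 0xee800001 (.node 0x213800001 (.node 0x4e8 .nil (.node 0x168 .nil (.node 0x398 .nil .nil))) (.node 0x240600001 (.node 0x160 .nil (.node 0x398 .nil .nil)) (.node 0x398 .nil .nil))) (.node 0x11dc00001 (.node 0x270400001 (.node 0x160 .nil (.node 0x160 .nil .nil)) (.node 0x2a2e00001 (.node 0x160 .nil .nil) .nil)) (.node 0x157800001 (.node 0xe0 .nil .nil) .nil)))) (.node 0x67600001 (.node 0x11de00001 (.node 0x4e8 .nil (.node 0x270600001 (.node 0x168 .nil (.node 0x398 .nil .nil)) (.node 0x398 .nil .nil))) (.node 0x157a00001 (.node 0x2a3000001 (.node 0xe8 .nil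
 (.node 0x398 .nil .nil)) (.node 0x398 .nil .nil)) (.node 0x19d600001 (.node 0x398 .nil .nil) .nil))) (.node 0x78c00001 (.node 0x19d800001 (.node 0xd0 .nil (.node 0xd0 .nil .nil)) (.node 0x1c6200001 (.node 0x380 .nil .nil) .nil)) (.node 0x8da00001 (.node 0x1ec400001 (.node 0x1f0 .nil .nil) .nil) .nil)))) (.node 0x2bc00001 (.node 0x78e00001 (.node 0x157c00001 (.node 0x4e8 .nil (.node 0x4e8 .nil (.node 0x4e8 .nil .nil))) (.node 0x19da00001 (.node 0xd0 .nil (.node 0x398 .nil .nil)) (.node 0x398 .nil .nil))) (.node 0x8dc00001 (.node 0x1c6400001 (.node 0xd0 .nil (.node 0x398 .nil .nil)) (.node 0x398 .nil .nil)) (.node 0xa7c00001 (.node 0x398 .nil .nil) .nil))) (.node 0x3d800001 (.node 0xa7e00001 (.node 0x1ec600001 (.node 0xd0 .nil (.node 0xd0 .nil .nil)) (.node 0xce01e8c (.node 0xd0 .nil .nil) .nil)) (.node 0xc7a00001 (.node 0x240800001 (.node 0x578 .nil .nil) .nil) .nil)) (.node 0x45000001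
 (.node 0xeea00001 (.node 0x270800001 (.node 0x578 .nil .nil) .nil) .nil) .nil))))) (.node 0x5 (.node 0x2be00001 (.node 0x67800001 (.node 0xeec00001 (.node 0x1ec800001 (.node 0x2b0a00001 (.node 0x2bf400001 (.node 0x2cd800001 (.node 0x5b0 .nil (.node 0x5b0 .nil (.node 0x1b0 .nil (.node 0xe0 .nil .nil)))) (.node 0x2cea00001 (.node 0x1b8 .nil (.node 0xe8 .nil (.node 0xe0 .nil .nil))) (.node 0x1b0 .nil (.node 0xe0 .nil .nil)))) (.node 0x2c2400001 (.node 0x1b8 .nil (.node 0xe8 .nil (.node 0xe0 .nil .nil))) (.node 0x1b0 .nil (.node 0xe0 .nil .nil)))) (.node 0x2b4400001 (.node 0x1b8 .nil (.node 0xe8 .nil (.node 0xe0 .nil .nil))) (.node 0x2b7a00001 (.node 0x480 .nil (.node 0xe0 .nil .nil)) (.node 0xe0 .nil .nil)))) (.node 0x213a00001 (.node 0x2b7c00001 (.node 0x4e8 .nil (.node 0xe8 .nil (.node 0xe0 .nil .nil))) (.node 0xe8 .nil (.node 0xe0 .nil .nil))) (.node 0x240a00001 (.node 0x480 .nil (.node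
 0xe0 .nil .nil)) (.node 0x270a00001 (.node 0xe0 .nil .nil) .nil)))) (.node 0x11e000001 (.node 0x240c00001 (.node 0x4e8 .nil (.node 0xe8 .nil (.node 0xe0 .nil .nil))) (.node 0x270c00001 (.node 0xe8 .nil (.node 0xe8 .nil .nil)) (.node 0x2a3200001 (.node 0xe0 .nil .nil) .nil))) (.node 0x157e00001 (.node 0x2a3400001 (.node 0x480 .nil (.node 0x480 .nil .nil)) (.node 0xe0 .nil .nil)) (.node 0x19dc00001 (.node 0xe0 .nil .nil) .nil)))) (.node 0x79000001 (.node 0x158000001 (.node 0x4e8 .nil (.node 0x2a3600001 (.node 0xe8 .nil (.node 0xe8 .nil .nil)) (.node 0xe0 .nil .nil))) (.node 0x19de00001 (.node 0xe8 .nil (.node 0xe8 .nil .nil)) (.node 0x1c6600001 (.node 0xe0 .nil .nil) .nil))) (.node 0x8de00001 (.node 0x1c6800001 (.node 0x480 .nil (.node 0x480 .nil .nil)) (.node 0x1eca00001 (.node 0xe0 .nil .nil) .nil)) (.node 0xa8000001 (.node 0x213c00001 (.node 0xe0 .nil .nil) .nil) .nil)))) (.node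
 0x3da00001 (.node 0x8e000001 (.node 0x19e000001 (.node 0x4e8 .nil (.node 0x4e8 .nil (.node 0x4e8 .nil .nil))) (.node 0x1c6a00001 (.node 0xe8 .nil (.node 0xe8 .nil .nil)) (.node 0x1ecc00001 (.node 0x1f0 .nil .nil) .nil))) (.node 0xa8200001 (.node 0x1ece00001 (.node 0xe8 .nil (.node 0xe8 .nil .nil)) (.node 0xb601eb4 (.node 0xe8 .nil .nil) .nil)) (.node 0xc7c00001 (.node 0x240e00001 (.node 0x1f0 .nil .nil) .nil) .nil))) (.node 0x45200001 (.node 0xc7e00001 (.node 0xb601e8c (.node 0x220 .nil (.node 0x220 .nil .nil)) (.node 0x16401e8c (.node 0x1f0 .nil .nil) .nil)) (.node 0xeee00001 (.node 0x270e00001 (.node 0x1f0 .nil .nil) .nil) .nil)) (.node 0x4e200001 (.node 0x11e200001 (.node 0x2a3800001 (.node 0x1f0 .nil .nil) .nil) .nil) .nil)))) (.node 0x3600001 (.node 0x45400001 (.node 0xa8400001 (.node 0x4e8 .nil (.node 0x4e8 .nil (.node 0x4e8 .nil .nil))) (.node 0xc8000001 (.node 0x213e00001 (.node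
 0x220 .nil (.node 0x208 .nil .nil)) (.node 0x14401eb4 (.node 0x208 .nil .nil) .nil)) (.node 0xef000001 (.node 0x271000001 (.node 0x578 .nil .nil) .nil) .nil))) (.node 0x4e400001 (.node 0xef200001 (.node 0x14401e8c (.node 0x220 .nil (.node 0x220 .nil .nil)) (.node 0x1fc01eb4 (.node 0x208 .nil .nil) .nil)) (.node 0x11e400001 (.node 0x2e401eb4 (.node 0x208 .nil .nil) .nil) .nil)) (.node 0x59800001 (.node 0x158200001 (.node 0x578 .nil .nil) .nil) .nil))) (.node 0x9e00001 (.node 0x59a00001 (.node 0x11e600001 (.node 0x1fc01e8c (.node 0x220 .nil (.node 0x220 .nil .nil)) (.node 0x31401e8c (.node 0x220 .nil .nil) .nil)) (.node 0x158400001 (.node 0xa01e64 (.node 0x578 .nil .nil) .nil) .nil)) (.node 0x67a00001 (.node 0x19e200001 (.node 0x578 .nil .nil) .nil) .nil)) (.node 0x12c00001 (.node 0x79200001 (.node 0x1c6c00001 (.node 0x578 .nil .nil) .nil) .nil) .nil)))))) (.node 0x5 (.node 0x5 (.node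
 0x1dc00001 (.node 0x4e600001 (.node 0x8e200001 (.node 0x11e800001 (.node 0x1ed000001 (.node 0x2a3a00001 (.node 0x290 .nil (.node 0x290 .nil (.node 0x290 .nil (.node 0x290 .nil (.node 0x290 .nil .nil))))) (.node 0x290 .nil (.node 0x290 .nil (.node 0x290 .nil (.node 0x290 .nil .nil))))) (.node 0x214000001 (.node 0x290 .nil (.node 0x290 .nil (.node 0x290 .nil (.node 0x290 .nil .nil)))) (.node 0x241000001 (.node 0x290 .nil (.node 0x290 .nil (.node 0x398 .nil .nil))) (.node 0x271200001 (.node 0x290 .nil (.node 0x290 .nil .nil)) (.node 0x2a3c00001 (.node 0x290 .nil .nil) .nil))))) (.node 0x158600001 (.node 0x241200001 (.node 0xc0 .nil (.node 0xc0 .nil (.node 0xc0 .nil (.node 0xc0 .nil .nil)))) (.node 0x271400001 (.node 0x2c8 .nil (.node 0x2c0 .nil (.node 0x398 .nil .nil))) (.node 0x2a3e00001 (.node 0x2c0 .nil (.node 0x2c0 .nil .nil)) (.node 0x2b0 .nil .nil)))) (.node 0x19e400001 (.node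
 0x2a4000001 (.node 0x4e8 .nil (.node 0x2c8 .nil (.node 0x398 .nil .nil))) (.node 0x148 .nil (.node 0x398 .nil .nil))) (.node 0x1c6e00001 (.node 0xd0 .nil (.node 0x2b0 .nil .nil)) (.node 0x1ed200001 (.node 0x2b0 .nil .nil) .nil))))) (.node 0xa8600001 (.node 0x19e600001 (.node 0x271600001 (.node 0xc0 .nil (.node 0xc0 .nil (.node 0xc0 .nil (.node 0xc0 .nil .nil)))) (.node 0x2a4200001 (.node 0xc0 .nil (.node 0xc0 .nil (.node 0x398 .nil .nil))) (.node 0xc0 .nil (.node 0xc0 .nil .nil)))) (.node 0x1c7000001 (.node 0x2c8 .nil (.node 0x2c0 .nil (.node 0x398 .nil .nil))) (.node 0x1ed400001 (.node 0x2c0 .nil (.node 0x2c0 .nil .nil)) (.node 0x214200001 (.node 0x2b0 .nil .nil) .nil)))) (.node 0xc8200001 (.node 0x1ed600001 (.node 0x4e8 .nil (.node 0x2c8 .nil (.node 0x398 .nil .nil))) (.node 0x214400001 (.node 0x148 .nil (.node 0x398 .nil .nil)) (.node 0x398 .nil .nil))) (.node 0xef400001 (.node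
 0x241400001 (.node 0xd0 .nil (.node 0xd0 .nil .nil)) (.node 0x271800001 (.node 0x2b0 .nil .nil) .nil)) (.node 0x11ea00001 (.node 0x2a4400001 (.node 0x2b0 .nil .nil) .nil) .nil))))) (.node 0x59c00001 (.node 0xc8400001 (.node 0x1c7200001 (.node 0x2a4600001 (.node 0xc0 .nil (.node 0xc0 .nil (.node 0xc0 .nil (.node 0xc0 .nil .nil)))) (.node 0xc0 .nil (.node 0xc0 .nil (.node 0xc0 .nil .nil)))) (.node 0x1ed800001 (.node 0xc0 .nil (.node 0xc0 .nil (.node 0x398 .nil .nil))) (.node 0x214600001 (.node 0xc0 .nil (.node 0xc0 .nil .nil)) (.node 0x241600001 (.node 0xc0 .nil .nil) .nil)))) (.node 0xef600001 (.node 0x214800001 (.node 0x4e8 .nil (.node 0x2c8 .nil (.node 0x398 .nil .nil))) (.node 0x241800001 (.node 0x2c0 .nil (.node 0x398 .nil .nil)) (.node 0x398 .nil .nil))) (.node 0x11ec00001 (.node 0x271a00001 (.node 0x2c0 .nil (.node 0x2c0 .nil .nil)) (.node 0x2a4800001 (.node 0x2c0 .nil .nil) .nil))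
 (.node 0x158800001 (.node 0x140 .nil .nil) .nil)))) (.node 0x67c00001 (.node 0x11ee00001 (.node 0x4e8 .nil (.node 0x271c00001 (.node 0x2c8 .nil (.node 0x398 .nil .nil)) (.node 0x398 .nil .nil))) (.node 0x158a00001 (.node 0x2a4a00001 (.node 0x148 .nil (.node 0x398 .nil .nil)) (.node 0x398 .nil .nil)) (.node 0x19e800001 (.node 0x398 .nil .nil) .nil))) (.node 0x79400001 (.node 0x19ea00001 (.node 0xd0 .nil (.node 0xd0 .nil .nil)) (.node 0x1c7400001 (.node 0x318 .nil .nil) .nil)) (.node 0x8e400001 (.node 0x1eda00001 (.node 0x318 .nil .nil) .nil) .nil))))) (.node 0x2c000001 (.node 0x67e00001 (.node 0xef800001 (.node 0x1edc00001 (.node 0xc0 .nil (.node 0xc0 .nil (.node 0xc0 .nil (.node 0xc0 .nil .nil)))) (.node 0x214a00001 (.node 0xc0 .nil (.node 0xc0 .nil (.node 0x398 .nil .nil))) (.node 0x241a00001 (.node 0xc0 .nil (.node 0xc0 .nil .nil)) (.node 0x271e00001 (.node 0xc0 .nil .nil) .nil))))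
 (.node 0x11f000001 (.node 0x241c00001 (.node 0x4e8 .nil (.node 0xc0 .nil (.node 0x398 .nil .nil))) (.node 0x272000001 (.node 0xc0 .nil (.node 0x398 .nil .nil)) (.node 0x398 .nil .nil))) (.node 0x158c00001 (.node 0x2a4c00001 (.node 0xc0 .nil (.node 0xc0 .nil .nil)) (.node 0xc0 .nil .nil)) (.node 0x19ec00001 (.node 0xc0 .nil .nil) .nil)))) (.node 0x79600001 (.node 0x158e00001 (.node 0x4e8 .nil (.node 0x2a4e00001 (.node 0x168 .nil (.node 0x398 .nil .nil)) (.node 0x398 .nil .nil))) (.node 0x19ee00001 (.node 0x148 .nil (.node 0x398 .nil .nil)) (.node 0x398 .nil .nil))) (.node 0x8e600001 (.node 0x1c7600001 (.node 0xd0 .nil (.node 0xd0 .nil .nil)) (.node 0x1ede00001 (.node 0x140 .nil .nil) .nil)) (.node 0xa8800001 (.node 0x214c00001 (.node 0x140 .nil .nil) .nil) .nil)))) (.node 0x3dc00001 (.node 0x8e800001 (.node 0x19f000001 (.node 0x4e8 .nil (.node 0x4e8 .nil (.node 0x4e8 .nil .nil))) (.node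
 0x1c7800001 (.node 0x148 .nil (.node 0x398 .nil .nil)) (.node 0x398 .nil .nil))) (.node 0xa8a00001 (.node 0x1ee000001 (.node 0x148 .nil (.node 0x398 .nil .nil)) (.node 0x398 .nil .nil)) (.node 0xc8600001 (.node 0x398 .nil .nil) .nil))) (.node 0x45600001 (.node 0xc8800001 (.node 0x214e00001 (.node 0xd0 .nil (.node 0xd0 .nil .nil)) (.node 0x16601e8c (.node 0xd0 .nil .nil) .nil)) (.node 0xefa00001 (.node 0x272200001 (.node 0x318 .nil .nil) .nil) .nil)) (.node 0x4e800001 (.node 0x11f200001 (.node 0x2a5000001 (.node 0x318 .nil .nil) .nil) .nil) .nil))))) (.node 0x3800001 (.node 0x3de00001 (.node 0x79800001 (.node 0x11f400001 (.node 0x215000001 (.node 0x2b4600001 (.node 0x2c2600001 (.node 0x2cec00001 (.node 0x5b0 .nil (.node 0x358 .nil (.node 0x160 .nil (.node 0xe0 .nil .nil)))) (.node 0x358 .nil (.node 0x160 .nil (.node 0xe0 .nil .nil)))) (.node 0x358 .nil (.node 0x160 .nil (.node 0xe0 .nil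
 .nil)))) (.node 0x2b7e00001 (.node 0x168 .nil (.node 0x160 .nil (.node 0x398 .nil .nil))) (.node 0x160 .nil (.node 0xe0 .nil .nil)))) (.node 0x241e00001 (.node 0x168 .nil (.node 0x160 .nil (.node 0x398 .nil .nil))) (.node 0x272400001 (.node 0x160 .nil (.node 0x160 .nil .nil)) (.node 0x2a5200001 (.node 0xe0 .nil .nil) .nil)))) (.node 0x159000001 (.node 0x272600001 (.node 0x4e8 .nil (.node 0x168 .nil (.node 0x398 .nil .nil))) (.node 0x2a5400001 (.node 0x160 .nil (.node 0x398 .nil .nil)) (.node 0x398 .nil .nil))) (.node 0x19f200001 (.node 0x160 .nil (.node 0x160 .nil .nil)) (.node 0x1c7a00001 (.node 0xe0 .nil .nil) .nil)))) (.node 0x8ea00001 (.node 0x19f400001 (.node 0x4e8 .nil (.node 0x168 .nil (.node 0x398 .nil .nil))) (.node 0x1c7c00001 (.node 0x160 .nil (.node 0x398 .nil .nil)) (.node 0x398 .nil .nil))) (.node 0xa8c00001 (.node 0x1ee200001 (.node 0x160 .nil (.node 0x160 .nil .nil))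
 (.node 0x215200001 (.node 0x160 .nil .nil) .nil)) (.node 0xc8a00001 (.node 0x242000001 (.node 0xe0 .nil .nil) .nil) .nil)))) (.node 0x45800001 (.node 0xa8e00001 (.node 0x4e8 .nil (.node 0x1ee400001 (.node 0x168 .nil (.node 0x398 .nil .nil)) (.node 0x398 .nil .nil))) (.node 0xc8c00001 (.node 0x215400001 (.node 0xe8 .nil (.node 0x398 .nil .nil)) (.node 0x398 .nil .nil)) (.node 0xefc00001 (.node 0x398 .nil .nil) .nil))) (.node 0x4ea00001 (.node 0xefe00001 (.node 0x14601e8c (.node 0xd0 .nil (.node 0xd0 .nil .nil)) (.node 0x22601e8c (.node 0xd0 .nil .nil) .nil)) (.node 0x11f600001 (.node 0x2a5600001 (.node 0x380 .nil .nil) .nil) .nil)) (.node 0x59e00001 (.node 0x159200001 (.node 0x1f0 .nil .nil) .nil) .nil)))) (.node 0xa000001 (.node 0x4ec00001 (.node 0xc8e00001 (.node 0x4e8 .nil (.node 0x4e8 .nil (.node 0x4e8 .nil .nil))) (.node 0xf0000001 (.node 0x242200001 (.node 0xd0 .nil (.node 0x398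
 .nil .nil)) (.node 0x398 .nil .nil)) (.node 0x11f800001 (.node 0x398 .nil .nil) .nil))) (.node 0x5a000001 (.node 0x11fa00001 (.node 0x1fe01e8c (.node 0xd0 .nil (.node 0x398 .nil .nil)) (.node 0x398 .nil .nil)) (.node 0x159400001 (.node 0x398 .nil .nil) .nil)) (.node 0x68000001 (.node 0x19f600001 (.node 0x398 .nil .nil) .nil) .nil))) (.node 0x12e00001 (.node 0x68200001 (.node 0x159600001 (.node 0x2e601e8c (.node 0xd0 .nil (.node 0xd0 .nil .nil)) (.node 0xd0 .nil .nil)) (.node 0x19f800001 (.node 0xd0 .nil .nil) .nil)) (.node 0x79a00001 (.node 0x1c7e00001 (.node 0x578 .nil .nil) .nil) .nil)) (.node 0x1de00001 (.node 0x8ec00001 (.node 0x1ee600001 (.node 0x578 .nil .nil) .nil) .nil) .nil))))) (.node 0x5 (.node 0xa200001 (.node 0x45a00001 (.node 0x8ee00001 (.node 0x159800001 (.node 0x242400001 (.node 0x2b8000001 (.node 0x2c4800001 (.node 0x5b0 .nil (.node 0x5b0 .nil (.node 0x1b0 .nil (.node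
 0xe0 .nil .nil)))) (.node 0x2c7e00001 (.node 0x1b8 .nil (.node 0xe8 .nil (.node 0xe0 .nil .nil))) (.node 0x1b0 .nil (.node 0xe0 .nil .nil)))) (.node 0x2ba800001 (.node 0x1b8 .nil (.node 0xe8 .nil (.node 0xe0 .nil .nil))) (.node 0x2bc600001 (.node 0x480 .nil (.node 0xe0 .nil .nil)) (.node 0xe0 .nil .nil)))) (.node 0x272800001 (.node 0x2bc800001 (.node 0x4e8 .nil (.node 0xe8 .nil (.node 0xe0 .nil .nil))) (.node 0xe8 .nil (.node 0xe0 .nil .nil))) (.node 0x2a5800001 (.node 0x480 .nil (.node 0xe0 .nil .nil)) (.node 0xe0 .nil .nil)))) (.node 0x19fa00001 (.node 0x2a5a00001 (.node 0x4e8 .nil (.node 0xe8 .nil (.node 0xe0 .nil .nil))) (.node 0xe8 .nil (.node 0xe0 .nil .nil))) (.node 0x1c8000001 (.node 0x480 .nil (.node 0xe0 .nil .nil)) (.node 0x1ee800001 (.node 0xe0 .nil .nil) .nil)))) (.node 0xa9000001 (.node 0x1c8200001 (.node 0x4e8 .nil (.node 0xe8 .nil (.node 0xe0 .nil .nil))) (.node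
 0x1eea00001 (.node 0xe8 .nil (.node 0xe8 .nil .nil)) (.node 0x215600001 (.node 0xe0 .nil .nil) .nil))) (.node 0xc9000001 (.node 0x215800001 (.node 0x480 .nil (.node 0x480 .nil .nil)) (.node 0x242600001 (.node 0xe0 .nil .nil) .nil)) (.node 0xf0200001 (.node 0x272a00001 (.node 0xe0 .nil .nil) .nil) .nil)))) (.node 0x4ee00001 (.node 0xc9200001 (.node 0x4e8 .nil (.node 0x215a00001 (.node 0xe8 .nil (.node 0xe8 .nil .nil)) (.node 0x242800001 (.node 0xe0 .nil .nil) .nil))) (.node 0xf0400001 (.node 0x242a00001 (.node 0xe8 .nil (.node 0xe8 .nil .nil)) (.node 0x20001eb4 (.node 0xe8 .nil .nil) .nil)) (.node 0x11fc00001 (.node 0x2a5c00001 (.node 0xe0 .nil .nil) .nil) .nil))) (.node 0x5a200001 (.node 0x11fe00001 (.node 0x20001e8c (.node 0x480 .nil (.node 0x480 .nil .nil)) (.node 0x31801e8c (.node 0x480 .nil .nil) .nil)) (.node 0x159a00001 (.node 0xe0 .nil .nil) .nil)) (.node 0x68400001 (.node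
 0x19fc00001 (.node 0xe0 .nil .nil) .nil) .nil)))) (.node 0x13000001 (.node 0x5a400001 (.node 0xf0600001 (.node 0x4e8 .nil (.node 0x4e8 .nil (.node 0x4e8 .nil .nil))) (.node 0x120000001 (.node 0x272c00001 (.node 0xe8 .nil (.node 0xe8 .nil .nil)) (.node 0x2e801eb4 (.node 0xe8 .nil .nil) .nil)) (.node 0x159c00001 (.node 0x1f0 .nil .nil) .nil))) (.node 0x68600001 (.node 0x159e00001 (.node 0x2e801e8c (.node 0xe8 .nil (.node 0xe8 .nil .nil)) (.node 0xe8 .nil .nil)) (.node 0x19fe00001 (.node 0xe8 .nil .nil) .nil)) (.node 0x79c00001 (.node 0x1c8400001 (.node 0x1f0 .nil .nil) .nil) .nil))) (.node 0x1e000001 (.node 0x79e00001 (.node 0x1a0000001 (.node 0x220 .nil (.node 0x220 .nil .nil)) (.node 0x601e8c (.node 0x1f0 .nil .nil) .nil)) (.node 0x8f000001 (.node 0x1eec00001 (.node 0x1f0 .nil .nil) .nil) .nil)) (.node 0x2c200001 (.node 0xa9200001 (.node 0x215c00001 (.node 0x1f0 .nil .nil) .nil) .nil)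
 .nil)))) (.node 0x5 (.node 0x1e200001 (.node 0x68800001 (.node 0x120200001 (.node 0x4e8 .nil (.node 0x4e8 .nil (.node 0x4e8 .nil .nil))) (.node 0x15a000001 (.node 0x4e8 .nil (.node 0x4e8 .nil .nil)) (.node 0x1a0200001 (.node 0x4e8 .nil .nil) .nil))) (.node 0x7a000001 (.node 0x1a0400001 (.node 0x220 .nil (.node 0x208 .nil .nil)) (.node 0x1eb4 (.node 0x208 .nil .nil) .nil)) (.node 0x8f200001 (.node 0x1eee00001 (.node 0x578 .nil .nil) .nil) .nil))) (.node 0x2c400001 (.node 0x8f400001 (.node 0x1e8c (.node 0x220 .nil (.node 0x220 .nil .nil)) (.node 0x4a01eb4 (.node 0x208 .nil .nil) .nil)) (.node 0xa9400001 (.node 0xb801eb4 (.node 0x208 .nil .nil) .nil) .nil)) (.node 0x3e000001 (.node 0xc9400001 (.node 0x242c00001 (.node 0x578 .nil .nil) .nil) .nil) .nil))) (.node 0x5 (.node 0x3e200001 (.node 0xa9600001 (.node 0x4a01e8c (.node 0x220 .nil (.node 0x220 .nil .nil)) (.node 0xd001e8c (.node 0x220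
 .nil .nil) .nil)) (.node 0xc9600001 (.node 0x16801e8c (.node 0x578 .nil .nil) .nil) .nil)) (.node 0x45c00001 (.node 0xf0800001 (.node 0x272e00001 (.node 0x578 .nil .nil) .nil) .nil) .nil)) (.node 0x5 (.node 0x4f000001 (.node 0x120400001 (.node 0x2a5e00001 (.node 0x578 .nil .nil) .nil) .nil) .nil) .nil)))))) (.node 0x5 (.node 0x5 (.node 0x3a00001 (.node 0x2c600001 (.node 0x5a600001 (.node 0xa9800001 (.node 0x15a200001 (.node 0x215e00001 (.node 0x290 .nil (.node 0x290 .nil (.node 0x290 .nil (.node 0x290 .nil (.node 0x290 .nil .nil))))) (.node 0x242e00001 (.node 0x290 .nil (.node 0x290 .nil (.node 0x290 .nil (.node 0x290 .nil .nil)))) (.node 0x273000001 (.node 0x290 .nil (.node 0x290 .nil (.node 0x398 .nil .nil))) (.node 0x2a6000001 (.node 0x290 .nil (.node 0x290 .nil .nil)) (.node 0x290 .nil .nil))))) (.node 0x1a0600001 (.node 0x273200001 (.node 0x290 .nil (.node 0x290 .nil (.node 0x290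
 .nil (.node 0x290 .nil .nil)))) (.node 0x2a6200001 (.node 0x290 .nil (.node 0x290 .nil (.node 0x398 .nil .nil))) (.node 0x290 .nil (.node 0x290 .nil .nil)))) (.node 0x1c8600001 (.node 0x290 .nil (.node 0x290 .nil (.node 0x398 .nil .nil))) (.node 0x1ef000001 (.node 0x290 .nil (.node 0x290 .nil .nil)) (.node 0x216000001 (.node 0x290 .nil .nil) .nil))))) (.node 0xc9800001 (.node 0x1c8800001 (.node 0x2a6400001 (.node 0x2bca00001 (.node 0x298 .nil (.node 0x2f0 .nil (.node 0x2c0 .nil (.node 0x2b0 .nil .nil)))) (.node 0x2f0 .nil (.node 0x2c0 .nil (.node 0x2b0 .nil .nil)))) (.node 0x2f0 .nil (.node 0x2c0 .nil (.node 0x2b0 .nil .nil)))) (.node 0x1ef200001 (.node 0x2c8 .nil (.node 0x2c0 .nil (.node 0x398 .nil .nil))) (.node 0x216200001 (.node 0x2c0 .nil (.node 0x2c0 .nil .nil)) (.node 0x243000001 (.node 0x2b0 .nil .nil) .nil)))) (.node 0xf0a00001 (.node 0x216400001 (.node 0x4e8 .nil (.node 0x2c8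
 .nil (.node 0x398 .nil .nil))) (.node 0x243200001 (.node 0x148 .nil (.node 0x398 .nil .nil)) (.node 0x398 .nil .nil))) (.node 0x120600001 (.node 0x273400001 (.node 0x220 .nil (.node 0x2b0 .nil .nil)) (.node 0x2a6600001 (.node 0x2b0 .nil .nil) .nil)) (.node 0x15a400001 (.node 0x2b0 .nil .nil) .nil))))) (.node 0x68a00001 (.node 0xf0c00001 (.node 0x1ef400001 (.node 0x2b0c00001 (.node 0x2bf600001 (.node 0x118 .nil (.node 0x2f0 .nil (.node 0x2c0 .nil (.node 0x2b0 .nil .nil)))) (.node 0x2f0 .nil (.node 0x2c0 .nil (.node 0x2b0 .nil .nil)))) (.node 0x2f0 .nil (.node 0x2c0 .nil (.node 0x2b0 .nil .nil)))) (.node 0x216600001 (.node 0x2f0 .nil (.node 0x2f0 .nil (.node 0x398 .nil .nil))) (.node 0x243400001 (.node 0x2c0 .nil (.node 0x2c0 .nil .nil)) (.node 0x273600001 (.node 0x2b0 .nil .nil) .nil)))) (.node 0x120800001 (.node 0x243600001 (.node 0x4e8 .nil (.node 0x2c8 .nil (.node 0x398 .nil .nil)))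
 (.node 0x273800001 (.node 0x2c0 .nil (.node 0x398 .nil .nil)) (.node 0x398 .nil .nil))) (.node 0x15a600001 (.node 0x2a6800001 (.node 0x2c0 .nil (.node 0x2c0 .nil .nil)) (.node 0x2c0 .nil .nil)) (.node 0x1a0800001 (.node 0x2b0 .nil .nil) .nil)))) (.node 0x7a200001 (.node 0x15a800001 (.node 0x4e8 .nil (.node 0x2a6a00001 (.node 0x2c8 .nil (.node 0x398 .nil .nil)) (.node 0x398 .nil .nil))) (.node 0x1a0a00001 (.node 0x148 .nil (.node 0x398 .nil .nil)) (.node 0x398 .nil .nil))) (.node 0x8f600001 (.node 0x1c8a00001 (.node 0x220 .nil (.node 0x2b0 .nil .nil)) (.node 0x1ef600001 (.node 0x2b0 .nil .nil) .nil)) (.node 0xa9a00001 (.node 0x216800001 (.node 0x2b0 .nil .nil) .nil) .nil))))) (.node 0x3e400001 (.node 0x7a400001 (.node 0x120a00001 (.node 0x216a00001 (.node 0x2b4800001 (.node 0x118 .nil (.node 0x2f0 .nil (.node 0x2c0 .nil (.node 0x140 .nil .nil)))) (.node 0x2f0 .nil (.node 0x2c0 .nil (.node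
 0x140 .nil .nil)))) (.node 0x243800001 (.node 0x2f0 .nil (.node 0x2f0 .nil (.node 0x398 .nil .nil))) (.node 0x273a00001 (.node 0x2c0 .nil (.node 0x2c0 .nil .nil)) (.node 0x2a6c00001 (.node 0x140 .nil .nil) .nil)))) (.node 0x15aa00001 (.node 0x273c00001 (.node 0x4e8 .nil (.node 0x2f0 .nil (.node 0x398 .nil .nil))) (.node 0x2a6e00001 (.node 0x2f0 .nil (.node 0x398 .nil .nil)) (.node 0x398 .nil .nil))) (.node 0x1a0c00001 (.node 0x2c0 .nil (.node 0x2c0 .nil .nil)) (.node 0x1c8c00001 (.node 0x140 .nil .nil) .nil)))) (.node 0x8f800001 (.node 0x1a0e00001 (.node 0x4e8 .nil (.node 0x2c8 .nil (.node 0x398 .nil .nil))) (.node 0x1c8e00001 (.node 0x2c0 .nil (.node 0x398 .nil .nil)) (.node 0x398 .nil .nil))) (.node 0xa9c00001 (.node 0x1ef800001 (.node 0x2c0 .nil (.node 0x2c0 .nil .nil)) (.node 0x216c00001 (.node 0x2c0 .nil .nil) .nil)) (.node 0xc9a00001 (.node 0x243a00001 (.node 0x140 .nil .nil) .nil)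
 .nil)))) (.node 0x45e00001 (.node 0xa9e00001 (.node 0x4e8 .nil (.node 0x1efa00001 (.node 0x2c8 .nil (.node 0x398 .nil .nil)) (.node 0x398 .nil .nil))) (.node 0xc9c00001 (.node 0x216e00001 (.node 0x148 .nil (.node 0x398 .nil .nil)) (.node 0x398 .nil .nil)) (.node 0xf0e00001 (.node 0x398 .nil .nil) .nil))) (.node 0x4f200001 (.node 0xf1000001 (.node 0x14a01e8c (.node 0x220 .nil (.node 0x220 .nil .nil)) (.node 0x22a01e8c (.node 0x318 .nil .nil) .nil)) (.node 0x120c00001 (.node 0x2a7000001 (.node 0x318 .nil .nil) .nil) .nil)) (.node 0x5a800001 (.node 0x15ac00001 (.node 0x318 .nil .nil) .nil) .nil))))) (.node 0xa400001 (.node 0x46000001 (.node 0x8fa00001 (.node 0x15ae00001 (.node 0x243c00001 (.node 0x2b8200001 (.node 0x2c4a00001 (.node 0x5b8 .nil (.node 0x2f0 .nil (.node 0x160 .nil (.node 0x140 .nil .nil)))) (.node 0x2f0 .nil (.node 0x160 .nil (.node 0x140 .nil .nil)))) (.node 0x2f0 .nil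
 (.node 0x160 .nil (.node 0x140 .nil .nil)))) (.node 0x273e00001 (.node 0x2f0 .nil (.node 0x2f0 .nil (.node 0x398 .nil .nil))) (.node 0x2a7200001 (.node 0x160 .nil (.node 0x160 .nil .nil)) (.node 0x140 .nil .nil)))) (.node 0x1a1000001 (.node 0x2a7400001 (.node 0x4e8 .nil (.node 0x2f0 .nil (.node 0x398 .nil .nil))) (.node 0x2f0 .nil (.node 0x398 .nil .nil))) (.node 0x1c9000001 (.node 0x160 .nil (.node 0x160 .nil .nil)) (.node 0x1efc00001 (.node 0x140 .nil .nil) .nil)))) (.node 0xaa000001 (.node 0x1c9200001 (.node 0x4e8 .nil (.node 0x2f0 .nil (.node 0x398 .nil .nil))) (.node 0x1efe00001 (.node 0x2f0 .nil (.node 0x398 .nil .nil)) (.node 0x398 .nil .nil))) (.node 0xc9e00001 (.node 0x217000001 (.node 0x160 .nil (.node 0x160 .nil .nil)) (.node 0x243e00001 (.node 0x160 .nil .nil) .nil)) (.node 0xf1200001 (.node 0x274000001 (.node 0x140 .nil .nil) .nil) .nil)))) (.node 0x4f400001 (.node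
 0xca000001 (.node 0x4e8 .nil (.node 0x217200001 (.node 0x168 .nil (.node 0x398 .nil .nil)) (.node 0x398 .nil .nil))) (.node 0xf1400001 (.node 0x244000001 (.node 0x148 .nil (.node 0x398 .nil .nil)) (.node 0x398 .nil .nil)) (.node 0x120e00001 (.node 0x398 .nil .nil) .nil))) (.node 0x5aa00001 (.node 0x121000001 (.node 0x20401e8c (.node 0x220 .nil (.node 0x220 .nil .nil)) (.node 0x31c01e8c (.node 0x140 .nil .nil) .nil)) (.node 0x15b000001 (.node 0x140 .nil .nil) .nil)) (.node 0x68c00001 (.node 0x1a1200001 (.node 0x140 .nil .nil) .nil) .nil)))) (.node 0x13200001 (.node 0x5ac00001 (.node 0xf1600001 (.node 0x4e8 .nil (.node 0x4e8 .nil (.node 0x4e8 .nil .nil))) (.node 0x121200001 (.node 0x274200001 (.node 0x148 .nil (.node 0x398 .nil .nil)) (.node 0x398 .nil .nil)) (.node 0x15b200001 (.node 0x398 .nil .nil) .nil))) (.node 0x68e00001 (.node 0x15b400001 (.node 0x2ec01e8c (.node 0x148 .nil (.node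
 0x398 .nil .nil)) (.node 0x398 .nil .nil)) (.node 0x1a1400001 (.node 0x398 .nil .nil) .nil)) (.node 0x7a600001 (.node 0x398 .nil .nil) .nil))) (.node 0x1e400001 (.node 0x7a800001 (.node 0x1a1600001 (.node 0x220 .nil (.node 0x220 .nil .nil)) (.node 0x801e8c (.node 0x318 .nil .nil) .nil)) (.node 0x8fc00001 (.node 0x1f0000001 (.node 0x318 .nil .nil) .nil) .nil)) (.node 0x2c800001 (.node 0xaa200001 (.node 0x217400001 (.node 0x318 .nil .nil) .nil) .nil) .nil))))) (.node 0x5 (.node 0x13400001 (.node 0x4f600001 (.node 0xaa400001 (.node 0x1a1800001 (.node 0x274400001 (.node 0x2baa00001 (.node 0x2c8000001 (.node 0x2d0200001 (.node 0x5c0 .nil (.node 0x358 .nil (.node 0x160 .nil (.node 0x158 .nil .nil)))) (.node 0x358 .nil (.node 0x160 .nil (.node 0x158 .nil .nil)))) (.node 0x358 .nil (.node 0x160 .nil (.node 0x158 .nil .nil)))) (.node 0x2bcc00001 (.node 0x168 .nil (.node 0x160 .nil (.node 0x398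
 .nil .nil))) (.node 0x160 .nil (.node 0x158 .nil .nil)))) (.node 0x2a7600001 (.node 0x168 .nil (.node 0x160 .nil (.node 0x398 .nil .nil))) (.node 0x160 .nil (.node 0x2b4a00001 (.node 0x1f0 .nil .nil) .nil)))) (.node 0x1c9400001 (.node 0x168 .nil (.node 0x160 .nil (.node 0x398 .nil .nil))) (.node 0x1f0200001 (.node 0x160 .nil (.node 0x160 .nil .nil)) (.node 0x217600001 (.node 0x1f0 .nil .nil) .nil)))) (.node 0xca200001 (.node 0x1f0400001 (.node 0x4e8 .nil (.node 0x168 .nil (.node 0x398 .nil .nil))) (.node 0x217800001 (.node 0x160 .nil (.node 0x398 .nil .nil)) (.node 0x398 .nil .nil))) (.node 0xf1800001 (.node 0x244200001 (.node 0x160 .nil (.node 0x160 .nil .nil)) (.node 0x274600001 (.node 0x160 .nil .nil) .nil)) (.node 0x121400001 (.node 0x2a7800001 (.node 0x1f0 .nil .nil) .nil) .nil)))) (.node 0x5ae00001 (.node 0xf1a00001 (.node 0x4e8 .nil (.node 0x244400001 (.node 0x168 .nil (.node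
 0x398 .nil .nil)) (.node 0x398 .nil .nil))) (.node 0x121600001 (.node 0x274800001 (.node 0x160 .nil (.node 0x398 .nil .nil)) (.node 0x398 .nil .nil)) (.node 0x15b600001 (.node 0x398 .nil .nil) .nil))) (.node 0x69000001 (.node 0x15b800001 (.node 0x2ee01e8c (.node 0x160 .nil (.node 0x160 .nil .nil)) (.node 0x160 .nil .nil)) (.node 0x1a1a00001 (.node 0x160 .nil .nil) .nil)) (.node 0x7aa00001 (.node 0x1c9600001 (.node 0x1f0 .nil .nil) .nil) .nil)))) (.node 0x1e600001 (.node 0x69200001 (.node 0x121800001 (.node 0x4e8 .nil (.node 0x4e8 .nil (.node 0x4e8 .nil .nil))) (.node 0x15ba00001 (.node 0x2a7a00001 (.node 0x168 .nil (.node 0x398 .nil .nil)) (.node 0x398 .nil .nil)) (.node 0x1a1c00001 (.node 0x398 .nil .nil) .nil))) (.node 0x7ac00001 (.node 0x1a1e00001 (.node 0x390 .nil (.node 0x398 .nil .nil)) (.node 0x398 .nil .nil)) (.node 0x8fe00001 (.node 0x398 .nil .nil) .nil))) (.node 0x2ca00001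
 (.node 0x90000001 (.node 0x1c9800001 (.node 0x220 .nil (.node 0x220 .nil .nil)) (.node 0x5c01e8c (.node 0x380 .nil .nil) .nil)) (.node 0xaa600001 (.node 0x217a00001 (.node 0x380 .nil .nil) .nil) .nil)) (.node 0x3e600001 (.node 0xca400001 (.node 0x244600001 (.node 0x1f0 .nil .nil) .nil) .nil) .nil)))) (.node 0x5 (.node 0x2cc00001 (.node 0x7ae00001 (.node 0x15bc00001 (.node 0x4e8 .nil (.node 0x4e8 .nil (.node 0x4e8 .nil .nil))) (.node 0x1a2000001 (.node 0x4e8 .nil (.node 0x4e8 .nil .nil)) (.node 0x4e8 .nil .nil))) (.node 0x90200001 (.node 0x1c9a00001 (.node 0x390 .nil (.node 0x398 .nil .nil)) (.node 0x398 .nil .nil)) (.node 0xaa800001 (.node 0x398 .nil .nil) .nil))) (.node 0x3e800001 (.node 0xaaa00001 (.node 0x4c01e8c (.node 0x390 .nil (.node 0x398 .nil .nil)) (.node 0x398 .nil .nil)) (.node 0xca600001 (.node 0x398 .nil .nil) .nil)) (.node 0x46200001 (.node 0xf1c00001 (.node 0x398 .nil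
 .nil) .nil) .nil))) (.node 0x5 (.node 0x46400001 (.node 0xca800001 (.node 0xba01e8c (.node 0x220 .nil (.node 0x220 .nil .nil)) (.node 0x16a01e8c (.node 0x220 .nil .nil) .nil)) (.node 0xf1e00001 (.node 0x22c01e8c (.node 0x578 .nil .nil) .nil) .nil)) (.node 0x4f800001 (.node 0x121a00001 (.node 0x2a7c00001 (.node 0x578 .nil .nil) .nil) .nil) .nil)) (.node 0x3c00001 (.node 0x5b000001 (.node 0x15be00001 (.node 0x578 .nil .nil) .nil) .nil) .nil))))) (.node 0x5 (.node 0x5 (.node 0x1e800001 (.node 0x5b200001 (.node 0xcaa00001 (.node 0x1c9c00001 (.node 0x2a7e00001 (.node 0x2bce00001 (.node 0x2cbe00001 (.node 0x2d1c00001 (.node 0x2d4800001 (.node 0x5c8 .nil (.node 0x458 .nil (.node 0x1b0 .nil (.node 0x1a8 .nil .nil)))) (.node 0x458 .nil (.node 0x1b0 .nil (.node 0x1a8 .nil .nil)))) (.node 0x458 .nil (.node 0x1b0 .nil (.node 0x1a8 .nil .nil)))) (.node 0x2cda00001 (.node 0x1b8 .nil (.node 0x1b0 .nil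
 (.node 0x478 .nil .nil))) (.node 0x1b0 .nil (.node 0x1a8 .nil .nil)))) (.node 0x2bf800001 (.node 0x1b8 .nil (.node 0x1b0 .nil (.node 0x478 .nil .nil))) (.node 0x1b0 .nil (.node 0x2c4c00001 (.node 0x1f0 .nil .nil) .nil)))) (.node 0x2b0e00001 (.node 0x1b8 .nil (.node 0x1b0 .nil (.node 0x478 .nil .nil))) (.node 0x2b4c00001 (.node 0x480 .nil (.node 0x1b0 .nil .nil)) (.node 0x2b8400001 (.node 0x1f0 .nil .nil) .nil)))) (.node 0x1f0600001 (.node 0x2b4e00001 (.node 0x4e8 .nil (.node 0x4a0 .nil (.node 0x478 .nil .nil))) (.node 0x2b8600001 (.node 0x480 .nil (.node 0x478 .nil .nil)) (.node 0x478 .nil .nil))) (.node 0x217c00001 (.node 0x480 .nil (.node 0x23a01e6c (.node 0x1f0 .nil .nil) .nil)) (.node 0x244800001 (.node 0x1f0 .nil .nil) .nil)))) (.node 0xf2000001 (.node 0x217e00001 (.node 0x4e8 .nil (.node 0x4a0 .nil (.node 0x478 .nil .nil))) (.node 0x244a00001 (.node 0x480 .nil (.node 0x478 .nil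
 .nil)) (.node 0x274a00001 (.node 0x478 .nil .nil) .nil))) (.node 0x121c00001 (.node 0x274c00001 (.node 0x480 .nil (.node 0x480 .nil .nil)) (.node 0x2a8000001 (.node 0x1f0 .nil .nil) .nil)) (.node 0x15c000001 (.node 0x1f0 .nil .nil) .nil)))) (.node 0x69400001 (.node 0x121e00001 (.node 0x4e8 .nil (.node 0x274e00001 (.node 0x4a0 .nil (.node 0x4a0 .nil .nil)) (.node 0x2a8200001 (.node 0x478 .nil .nil) .nil))) (.node 0x15c200001 (.node 0x2a8400001 (.node 0x480 .nil (.node 0x480 .nil .nil)) (.node 0x478 .nil .nil)) (.node 0x1a2200001 (.node 0x478 .nil .nil) .nil))) (.node 0x7b000001 (.node 0x1a2400001 (.node 0x480 .nil (.node 0x480 .nil .nil)) (.node 0x1c9e00001 (.node 0x1f0 .nil .nil) .nil)) (.node 0x90400001 (.node 0x1f0800001 (.node 0x1f0 .nil .nil) .nil) .nil)))) (.node 0x2ce00001 (.node 0x7b200001 (.node 0x15c400001 (.node 0x4e8 .nil (.node 0x4e8 .nil (.node 0x4e8 .nil .nil))) (.node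
 0x1a2600001 (.node 0x4a0 .nil (.node 0x4a0 .nil .nil)) (.node 0x1ca000001 (.node 0x478 .nil .nil) .nil))) (.node 0x90600001 (.node 0x1ca200001 (.node 0x480 .nil (.node 0x480 .nil .nil)) (.node 0x1f0a00001 (.node 0x478 .nil .nil) .nil)) (.node 0xaac00001 (.node 0x218000001 (.node 0x478 .nil .nil) .nil) .nil))) (.node 0x3ea00001 (.node 0xaae00001 (.node 0x1f0c00001 (.node 0x480 .nil (.node 0x480 .nil .nil)) (.node 0xd401e8c (.node 0x480 .nil .nil) .nil)) (.node 0xcac00001 (.node 0x244c00001 (.node 0x1f0 .nil .nil) .nil) .nil)) (.node 0x46600001 (.node 0xf2200001 (.node 0x275000001 (.node 0x1f0 .nil .nil) .nil) .nil) .nil)))) (.node 0x5 (.node 0x3ec00001 (.node 0x90800001 (.node 0x1a2800001 (.node 0x4e8 .nil (.node 0x4e8 .nil (.node 0x4e8 .nil .nil))) (.node 0x4e8 .nil (.node 0x4e8 .nil .nil))) (.node 0xab000001 (.node 0x1f0e00001 (.node 0x4a0 .nil (.node 0x4a0 .nil .nil)) (.node 0xbc01eb4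
 (.node 0x4a0 .nil .nil) .nil)) (.node 0xcae00001 (.node 0x244e00001 (.node 0x1f0 .nil .nil) .nil) .nil))) (.node 0x46800001 (.node 0xcb000001 (.node 0xbc01e8c (.node 0x220 .nil (.node 0x220 .nil .nil)) (.node 0x14e01eb4 (.node 0x208 .nil .nil) .nil)) (.node 0xf2400001 (.node 0x20801eb4 (.node 0x208 .nil .nil) .nil) .nil)) (.node 0x4fa00001 (.node 0x122000001 (.node 0x2a8600001 (.node 0x1f0 .nil .nil) .nil) .nil) .nil))) (.node 0x3e00001 (.node 0x4fc00001 (.node 0xf2600001 (.node 0x14e01e8c (.node 0x220 .nil (.node 0x220 .nil .nil)) (.node 0x22e01e8c (.node 0x220 .nil .nil) .nil)) (.node 0x122200001 (.node 0x32001e8c (.node 0x1f0 .nil .nil) .nil) .nil)) (.node 0x5b400001 (.node 0x15c600001 (.node 0x1f0 .nil .nil) .nil) .nil)) (.node 0xa600001 (.node 0x69600001 (.node 0x1a2a00001 (.node 0x1f0 .nil .nil) .nil) .nil) .nil)))) (.node 0x5 (.node 0x4000001 (.node 0x46a00001 (.node 0xab200001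
 (.node 0x4e8 .nil (.node 0x4e8 .nil (.node 0x4e8 .nil .nil))) (.node 0xcb200001 (.node 0x4e8 .nil (.node 0x4e8 .nil .nil)) (.node 0xf2800001 (.node 0x4e8 .nil .nil) .nil))) (.node 0x4fe00001 (.node 0xf2a00001 (.node 0x15001e8c (.node 0x220 .nil (.node 0x220 .nil .nil)) (.node 0x20a01eb4 (.node 0x208 .nil .nil) .nil)) (.node 0x122400001 (.node 0x2f401eb4 (.node 0x208 .nil .nil) .nil) .nil)) (.node 0x5b600001 (.node 0x15c800001 (.node 0x578 .nil .nil) .nil) .nil))) (.node 0xa800001 (.node 0x5b800001 (.node 0x122600001 (.node 0x20a01e8c (.node 0x220 .nil (.node 0x220 .nil .nil)) (.node 0x2f601eb4 (.node 0x220 .nil .nil) .nil)) (.node 0x15ca00001 (.node 0x208 .nil .nil) .nil)) (.node 0x69800001 (.node 0x1a2c00001 (.node 0x208 .nil .nil) .nil) .nil)) (.node 0x13600001 (.node 0x7b400001 (.node 0x1ca400001 (.node 0x578 .nil .nil) .nil) .nil) .nil))) (.node 0x5 (.node 0x13800001 (.node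
 0x69a00001 (.node 0x15cc00001 (.node 0x2f601e8c (.node 0x220 .nil (.node 0x220 .nil .nil)) (.node 0x220 .nil .nil)) (.node 0x1a2e00001 (.node 0x220 .nil .nil) .nil)) (.node 0x7b600001 (.node 0xa01e8c (.node 0x578 .nil .nil) .nil) .nil)) (.node 0x1ea00001 (.node 0x90a00001 (.node 0x1f1000001 (.node 0x578 .nil .nil) .nil) .nil) .nil)) (.node 0x5 (.node 0x2d000001 (.node 0xab400001 (.node 0x218200001 (.node 0x578 .nil .nil) .nil) .nil) .nil) .nil)))))) (.node 0x5 (.node 0x5 (.node 0x5 (.node 0xaa00001 (.node 0x3ee00001 (.node 0x69c00001 (.node 0xcb400001 (.node 0x1a3000001 (.node 0x245000001 (.node 0x290 .nil (.node 0x290 .nil (.node 0x290 .nil (.node 0x290 .nil (.node 0x290 .nil .nil))))) (.node 0x275200001 (.node 0x290 .nil (.node 0x290 .nil (.node 0x290 .nil (.node 0x290 .nil .nil)))) (.node 0x2a8800001 (.node 0x290 .nil (.node 0x290 .nil (.node 0x398 .nil .nil))) (.node 0x290 .nil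
 (.node 0x290 .nil .nil))))) (.node 0x1ca600001 (.node 0x2a8a00001 (.node 0x290 .nil (.node 0x290 .nil (.node 0x290 .nil (.node 0x290 .nil .nil)))) (.node 0x290 .nil (.node 0x290 .nil (.node 0x290 .nil .nil)))) (.node 0x1f1200001 (.node 0x290 .nil (.node 0x290 .nil (.node 0x398 .nil .nil))) (.node 0x218400001 (.node 0x290 .nil (.node 0x290 .nil .nil)) (.node 0x245200001 (.node 0x290 .nil .nil) .nil))))) (.node 0xf2c00001 (.node 0x1f1400001 (.node 0x290 .nil (.node 0x290 .nil (.node 0x290 .nil (.node 0x290 .nil .nil)))) (.node 0x218600001 (.node 0x290 .nil (.node 0x290 .nil (.node 0x398 .nil .nil))) (.node 0x245400001 (.node 0x290 .nil (.node 0x290 .nil .nil)) (.node 0x275400001 (.node 0x290 .nil .nil) .nil)))) (.node 0x122800001 (.node 0x245600001 (.node 0x4e8 .nil (.node 0x290 .nil (.node 0x398 .nil .nil))) (.node 0x275600001 (.node 0x290 .nil (.node 0x398 .nil .nil)) (.node 0x398 .nil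
 .nil))) (.node 0x15ce00001 (.node 0x2a8c00001 (.node 0x290 .nil (.node 0x290 .nil .nil)) (.node 0x290 .nil .nil)) (.node 0x1a3200001 (.node 0x290 .nil .nil) .nil))))) (.node 0x7b800001 (.node 0x122a00001 (.node 0x218800001 (.node 0x2b5000001 (.node 0x298 .nil (.node 0x2f0 .nil (.node 0x2c0 .nil (.node 0x2b0 .nil .nil)))) (.node 0x2f0 .nil (.node 0x2c0 .nil (.node 0x2b0 .nil .nil)))) (.node 0x245800001 (.node 0x2f0 .nil (.node 0x2f0 .nil (.node 0x398 .nil .nil))) (.node 0x275800001 (.node 0x2c0 .nil (.node 0x2c0 .nil .nil)) (.node 0x2a8e00001 (.node 0x2b0 .nil .nil) .nil)))) (.node 0x15d000001 (.node 0x275a00001 (.node 0x4e8 .nil (.node 0x2c8 .nil (.node 0x398 .nil .nil))) (.node 0x2a9000001 (.node 0x2c0 .nil (.node 0x398 .nil .nil)) (.node 0x398 .nil .nil))) (.node 0x1a3400001 (.node 0x2c0 .nil (.node 0x2c0 .nil .nil)) (.node 0x1ca800001 (.node 0x2b0 .nil .nil) .nil)))) (.node 0x90c00001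
 (.node 0x1a3600001 (.node 0x4e8 .nil (.node 0x2c8 .nil (.node 0x398 .nil .nil))) (.node 0x1caa00001 (.node 0x390 .nil (.node 0x398 .nil .nil)) (.node 0x398 .nil .nil))) (.node 0xab600001 (.node 0x1f1600001 (.node 0x2b8800001 (.node 0x2a8 .nil (.node 0x2b0 .nil .nil)) (.node 0x2b0 .nil .nil)) (.node 0x218a00001 (.node 0x2b0 .nil .nil) .nil)) (.node 0xcb600001 (.node 0x245a00001 (.node 0x2b0 .nil .nil) .nil) .nil))))) (.node 0x46c00001 (.node 0x90e00001 (.node 0x15d200001 (.node 0x245c00001 (.node 0x2b8a00001 (.node 0x2c4e00001 (.node 0x5d0 .nil (.node 0x2f0 .nil (.node 0x2c0 .nil (.node 0x2b0 .nil .nil)))) (.node 0x2f0 .nil (.node 0x2c0 .nil (.node 0x2b0 .nil .nil)))) (.node 0x2f0 .nil (.node 0x2c0 .nil (.node 0x2b0 .nil .nil)))) (.node 0x275c00001 (.node 0x2f0 .nil (.node 0x2f0 .nil (.node 0x398 .nil .nil))) (.node 0x2a9200001 (.node 0x2c0 .nil (.node 0x2c0 .nil .nil)) (.node 0x2b0 .nil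
 .nil)))) (.node 0x1a3800001 (.node 0x2a9400001 (.node 0x4e8 .nil (.node 0x2f0 .nil (.node 0x398 .nil .nil))) (.node 0x2f0 .nil (.node 0x398 .nil .nil))) (.node 0x1cac00001 (.node 0x2c0 .nil (.node 0x2c0 .nil .nil)) (.node 0x1f1800001 (.node 0x2b0 .nil .nil) .nil)))) (.node 0xab800001 (.node 0x1cae00001 (.node 0x4e8 .nil (.node 0x2c8 .nil (.node 0x398 .nil .nil))) (.node 0x1f1a00001 (.node 0x2c0 .nil (.node 0x398 .nil .nil)) (.node 0x398 .nil .nil))) (.node 0xcb800001 (.node 0x218c00001 (.node 0x2c0 .nil (.node 0x2c0 .nil .nil)) (.node 0x245e00001 (.node 0x2c0 .nil .nil) .nil)) (.node 0xf2e00001 (.node 0x275e00001 (.node 0x2b0 .nil .nil) .nil) .nil)))) (.node 0x50000001 (.node 0xcba00001 (.node 0x4e8 .nil (.node 0x218e00001 (.node 0x2c8 .nil (.node 0x398 .nil .nil)) (.node 0x398 .nil .nil))) (.node 0xf3000001 (.node 0x246000001 (.node 0x390 .nil (.node 0x398 .nil .nil)) (.node 0x398 .nil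
 .nil)) (.node 0x122c00001 (.node 0x398 .nil .nil) .nil))) (.node 0x5ba00001 (.node 0x122e00001 (.node 0x20e01e8c (.node 0x2bfa00001 (.node 0x2a8 .nil (.node 0x2b0 .nil .nil)) (.node 0x2b0 .nil .nil)) (.node 0x32601e8c (.node 0x2b0 .nil .nil) .nil)) (.node 0x15d400001 (.node 0x2b0 .nil .nil) .nil)) (.node 0x69e00001 (.node 0x1a3a00001 (.node 0x2b0 .nil .nil) .nil) .nil))))) (.node 0x13a00001 (.node 0x50200001 (.node 0xaba00001 (.node 0x1a3c00001 (.node 0x276000001 (.node 0x2bac00001 (.node 0x2c8200001 (.node 0x2d0400001 (.node 0x5d8 .nil (.node 0x2f0 .nil (.node 0x2c0 .nil (.node 0x2b8 .nil .nil)))) (.node 0x2f0 .nil (.node 0x2c0 .nil (.node 0x2b8 .nil .nil)))) (.node 0x2f0 .nil (.node 0x2c0 .nil (.node 0x2b8 .nil .nil)))) (.node 0x2f0 .nil (.node 0x2c0 .nil (.node 0x2b8 .nil .nil)))) (.node 0x2a9600001 (.node 0x2f0 .nil (.node 0x2f0 .nil (.node 0x398 .nil .nil))) (.node 0x2c0 .nil (.node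
 0x5001e44 (.node 0x318 .nil .nil) .nil)))) (.node 0x1cb000001 (.node 0x2f0 .nil (.node 0x2f0 .nil (.node 0x398 .nil .nil))) (.node 0x1f1c00001 (.node 0x2c0 .nil (.node 0x2c0 .nil .nil)) (.node 0x219000001 (.node 0x318 .nil .nil) .nil)))) (.node 0xcbc00001 (.node 0x1f1e00001 (.node 0x4e8 .nil (.node 0x2f0 .nil (.node 0x398 .nil .nil))) (.node 0x219200001 (.node 0x2f0 .nil (.node 0x398 .nil .nil)) (.node 0x398 .nil .nil))) (.node 0xf3200001 (.node 0x246200001 (.node 0x2c0 .nil (.node 0x2c0 .nil .nil)) (.node 0x276200001 (.node 0x2c0 .nil .nil) .nil)) (.node 0x123000001 (.node 0x2a9800001 (.node 0x318 .nil .nil) .nil) .nil)))) (.node 0x5bc00001 (.node 0xf3400001 (.node 0x4e8 .nil (.node 0x246400001 (.node 0x2c8 .nil (.node 0x398 .nil .nil)) (.node 0x398 .nil .nil))) (.node 0x123200001 (.node 0x276400001 (.node 0x2c0 .nil (.node 0x398 .nil .nil)) (.node 0x398 .nil .nil)) (.node 0x15d600001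
 (.node 0x398 .nil .nil) .nil))) (.node 0x6a000001 (.node 0x15d800001 (.node 0x2fa01e8c (.node 0x2c0 .nil (.node 0x2c0 .nil .nil)) (.node 0x2c0 .nil .nil)) (.node 0x1a3e00001 (.node 0x2c0 .nil .nil) .nil)) (.node 0x7ba00001 (.node 0x1cb200001 (.node 0x318 .nil .nil) .nil) .nil)))) (.node 0x1ec00001 (.node 0x6a200001 (.node 0x123400001 (.node 0x4e8 .nil (.node 0x4e8 .nil (.node 0x4e8 .nil .nil))) (.node 0x15da00001 (.node 0x2a9a00001 (.node 0x2c8 .nil (.node 0x398 .nil .nil)) (.node 0x398 .nil .nil)) (.node 0x1a4000001 (.node 0x398 .nil .nil) .nil))) (.node 0x7bc00001 (.node 0x1a4200001 (.node 0x390 .nil (.node 0x398 .nil .nil)) (.node 0x398 .nil .nil)) (.node 0x91000001 (.node 0x398 .nil .nil) .nil))) (.node 0x2d200001 (.node 0x91200001 (.node 0x1cb400001 (.node 0x2b5200001 (.node 0x2c8400001 (.node 0x300 .nil (.node 0x308 .nil .nil)) (.node 0x308 .nil .nil)) (.node 0xea01e5c (.node 0x318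
 .nil .nil) .nil)) (.node 0x1f2000001 (.node 0x318 .nil .nil) .nil)) (.node 0xabc00001 (.node 0x219400001 (.node 0x318 .nil .nil) .nil) .nil)) (.node 0x3f000001 (.node 0xcbe00001 (.node 0x246600001 (.node 0x318 .nil .nil) .nil) .nil) .nil))))) (.node 0x5 (.node 0x1ee00001 (.node 0x5be00001 (.node 0xcc000001 (.node 0x1cb600001 (.node 0x2a9c00001 (.node 0x2bd000001 (.node 0x2cc000001 (.node 0x2d1e00001 (.node 0x5001e4c (.node 0x5e0 .nil (.node 0x2f0 .nil (.node 0x2e8 .nil (.node 0x2e0 .nil .nil)))) (.node 0x2f0 .nil (.node 0x2e8 .nil (.node 0x2e0 .nil .nil)))) (.node 0x2f0 .nil (.node 0x2e8 .nil (.node 0x2e0 .nil .nil)))) (.node 0x2f0 .nil (.node 0x2e8 .nil (.node 0x2e0 .nil .nil)))) (.node 0x2f0 .nil (.node 0x2e8 .nil (.node 0x5001e94 (.node 0x318 .nil .nil) .nil)))) (.node 0x2f0 .nil (.node 0x2b5400001 (.node 0x480 .nil (.node 0x380 .nil .nil)) (.node 0xc201e44 (.node 0x318 .nil .nil)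
 .nil)))) (.node 0x1f2200001 (.node 0x2f0 .nil (.node 0x2f0 .nil (.node 0x398 .nil .nil))) (.node 0x219600001 (.node 0x480 .nil (.node 0x380 .nil .nil)) (.node 0x246800001 (.node 0x318 .nil .nil) .nil)))) (.node 0xf3600001 (.node 0x219800001 (.node 0x4e8 .nil (.node 0x2f0 .nil (.node 0x398 .nil .nil))) (.node 0x246a00001 (.node 0x2f0 .nil (.node 0x398 .nil .nil)) (.node 0x398 .nil .nil))) (.node 0x123600001 (.node 0x276600001 (.node 0x480 .nil (.node 0x480 .nil .nil)) (.node 0x2a9e00001 (.node 0x380 .nil .nil) .nil)) (.node 0x15dc00001 (.node 0x318 .nil .nil) .nil)))) (.node 0x6a400001 (.node 0x123800001 (.node 0x4e8 .nil (.node 0x276800001 (.node 0x2f0 .nil (.node 0x398 .nil .nil)) (.node 0x398 .nil .nil))) (.node 0x15de00001 (.node 0x2aa000001 (.node 0x2f0 .nil (.node 0x398 .nil .nil)) (.node 0x398 .nil .nil)) (.node 0x1a4400001 (.node 0x398 .nil .nil) .nil))) (.node 0x7be00001 (.node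
 0x1a4600001 (.node 0x480 .nil (.node 0x480 .nil .nil)) (.node 0x1cb800001 (.node 0x380 .nil .nil) .nil)) (.node 0x91400001 (.node 0x1f2400001 (.node 0x318 .nil .nil) .nil) .nil)))) (.node 0x2d400001 (.node 0x7c000001 (.node 0x15e000001 (.node 0x4e8 .nil (.node 0x4e8 .nil (.node 0x4e8 .nil .nil))) (.node 0x1a4800001 (.node 0x4a0 .nil (.node 0x398 .nil .nil)) (.node 0x398 .nil .nil))) (.node 0x91600001 (.node 0x1cba00001 (.node 0x390 .nil (.node 0x398 .nil .nil)) (.node 0x398 .nil .nil)) (.node 0xabe00001 (.node 0x398 .nil .nil) .nil))) (.node 0x3f200001 (.node 0xac000001 (.node 0x5001e8c (.node 0x2b8c00001 (.node 0x378 .nil (.node 0x380 .nil .nil)) (.node 0x380 .nil .nil)) (.node 0xd801e8c (.node 0x380 .nil .nil) .nil)) (.node 0xcc200001 (.node 0x246c00001 (.node 0x380 .nil .nil) .nil) .nil)) (.node 0x46e00001 (.node 0xf3800001 (.node 0x276a00001 (.node 0x318 .nil .nil) .nil) .nil)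
 .nil)))) (.node 0x5 (.node 0x3f400001 (.node 0x91800001 (.node 0x1a4a00001 (.node 0x4e8 .nil (.node 0x4e8 .nil (.node 0x4e8 .nil .nil))) (.node 0x4e8 .nil (.node 0x4e8 .nil .nil))) (.node 0xac200001 (.node 0x1f2600001 (.node 0x390 .nil (.node 0x398 .nil .nil)) (.node 0x398 .nil .nil)) (.node 0xcc400001 (.node 0x398 .nil .nil) .nil))) (.node 0x47000001 (.node 0xcc600001 (.node 0xc001e8c (.node 0x390 .nil (.node 0x398 .nil .nil)) (.node 0x398 .nil .nil)) (.node 0xf3a00001 (.node 0x398 .nil .nil) .nil)) (.node 0x50400001 (.node 0x123a00001 (.node 0x398 .nil .nil) .nil) .nil))) (.node 0x4200001 (.node 0x50600001 (.node 0xf3c00001 (.node 0x15401e8c (.node 0x2bd200001 (.node 0x2cee00001 (.node 0x300 .nil (.node 0x308 .nil .nil)) (.node 0x308 .nil .nil)) (.node 0x34e01e5c (.node 0x318 .nil .nil) .nil)) (.node 0x23401e8c (.node 0x318 .nil .nil) .nil)) (.node 0x123c00001 (.node 0x32801e8c (.node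
 0x318 .nil .nil) .nil) .nil)) (.node 0x5c000001 (.node 0x15e200001 (.node 0x318 .nil .nil) .nil) .nil)) (.node 0xac00001 (.node 0x6a600001 (.node 0x1a4c00001 (.node 0x318 .nil .nil) .nil) .nil) .nil))))) (.node 0x5 (.node 0x5 (.node 0x2d600001 (.node 0x6a800001 (.node 0xf3e00001 (.node 0x1f2800001 (.node 0x2b1000001 (.node 0x2bfc00001 (.node 0x2cdc00001 (.node 0x2d3800001 (.node 0xc201e4c (.node 0x2d5200001 (.node 0x5e8 .nil (.node 0x358 .nil (.node 0x350 .nil (.node 0x348 .nil .nil)))) (.node 0x358 .nil (.node 0x350 .nil (.node 0x348 .nil .nil)))) (.node 0x358 .nil (.node 0x350 .nil (.node 0x348 .nil .nil)))) (.node 0x358 .nil (.node 0x350 .nil (.node 0x348 .nil .nil)))) (.node 0x358 .nil (.node 0x350 .nil (.node 0x2d0600001 (.node 0x368 .nil .nil) .nil)))) (.node 0x358 .nil (.node 0x2c5000001 (.node 0x480 .nil (.node 0x380 .nil .nil)) (.node 0xc201e94 (.node 0x368 .nil .nil) .nil))))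
 (.node 0x2b5600001 (.node 0x358 .nil (.node 0x358 .nil (.node 0x398 .nil .nil))) (.node 0x2b8e00001 (.node 0x480 .nil (.node 0x380 .nil .nil)) (.node 0x15a01e44 (.node 0x368 .nil .nil) .nil)))) (.node 0x219a00001 (.node 0x2b9000001 (.node 0x4e8 .nil (.node 0x4a0 .nil (.node 0x398 .nil .nil))) (.node 0x15a01e74 (.node 0x480 .nil (.node 0x398 .nil .nil)) (.node 0x398 .nil .nil))) (.node 0x246e00001 (.node 0x480 .nil (.node 0x380 .nil .nil)) (.node 0x276c00001 (.node 0x368 .nil .nil) .nil)))) (.node 0x123e00001 (.node 0x247000001 (.node 0x4e8 .nil (.node 0x4a0 .nil (.node 0x398 .nil .nil))) (.node 0x276e00001 (.node 0x480 .nil (.node 0x398 .nil .nil)) (.node 0x398 .nil .nil))) (.node 0x15e400001 (.node 0x2aa200001 (.node 0x480 .nil (.node 0x480 .nil .nil)) (.node 0x380 .nil .nil)) (.node 0x1a4e00001 (.node 0x7a01e44 (.node 0x578 .nil .nil) .nil) .nil)))) (.node 0x7c200001 (.node 0x15e600001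
 (.node 0x4e8 .nil (.node 0x2aa400001 (.node 0x4a0 .nil (.node 0x398 .nil .nil)) (.node 0x398 .nil .nil))) (.node 0x1a5000001 (.node 0x480 .nil (.node 0x398 .nil .nil)) (.node 0x398 .nil .nil))) (.node 0x91a00001 (.node 0x1cbc00001 (.node 0x480 .nil (.node 0x480 .nil .nil)) (.node 0x1f2a00001 (.node 0x380 .nil .nil) .nil)) (.node 0xac400001 (.node 0x219c00001 (.node 0x578 .nil .nil) .nil) .nil)))) (.node 0x3f600001 (.node 0x91c00001 (.node 0x1a5200001 (.node 0x4e8 .nil (.node 0x4e8 .nil (.node 0x4e8 .nil .nil))) (.node 0x1cbe00001 (.node 0x4a0 .nil (.node 0x398 .nil .nil)) (.node 0x398 .nil .nil))) (.node 0xac600001 (.node 0x1f2c00001 (.node 0x480 .nil (.node 0x398 .nil .nil)) (.node 0x398 .nil .nil)) (.node 0xcc800001 (.node 0x398 .nil .nil) .nil))) (.node 0x47200001 (.node 0xcca00001 (.node 0xc201e8c (.node 0x480 .nil (.node 0x480 .nil .nil)) (.node 0x17201e8c (.node 0x480 .nil .nil)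
 .nil)) (.node 0xf4000001 (.node 0x277000001 (.node 0x380 .nil .nil) .nil) .nil)) (.node 0x50800001 (.node 0x124000001 (.node 0x2aa600001 (.node 0x578 .nil .nil) .nil) .nil) .nil)))) (.node 0x4400001 (.node 0x47400001 (.node 0xac800001 (.node 0x4e8 .nil (.node 0x4e8 .nil (.node 0x4e8 .nil .nil))) (.node 0xccc00001 (.node 0x219e00001 (.node 0x4a0 .nil (.node 0x398 .nil .nil)) (.node 0x398 .nil .nil)) (.node 0xf4200001 (.node 0x398 .nil .nil) .nil))) (.node 0x50a00001 (.node 0xf4400001 (.node 0x15601e8c (.node 0x390 .nil (.node 0x398 .nil .nil)) (.node 0x398 .nil .nil)) (.node 0x124200001 (.node 0x398 .nil .nil) .nil)) (.node 0x5c200001 (.node 0x15e800001 (.node 0x398 .nil .nil) .nil) .nil))) (.node 0xae00001 (.node 0x5c400001 (.node 0x124400001 (.node 0x21201e8c (.node 0x2bfe00001 (.node 0x378 .nil (.node 0x380 .nil .nil)) (.node 0x380 .nil .nil)) (.node 0x32a01e8c (.node 0x380 .nil .nil)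
 .nil)) (.node 0x15ea00001 (.node 0x380 .nil .nil) .nil)) (.node 0x6aa00001 (.node 0x1a5400001 (.node 0x380 .nil .nil) .nil) .nil)) (.node 0x13c00001 (.node 0x7c400001 (.node 0x1cc000001 (.node 0x578 .nil .nil) .nil) .nil) .nil)))) (.node 0x5 (.node 0xb000001 (.node 0x50c00001 (.node 0xcce00001 (.node 0x4e8 .nil (.node 0x4e8 .nil (.node 0x4e8 .nil .nil))) (.node 0xf4600001 (.node 0x4e8 .nil (.node 0x4e8 .nil .nil)) (.node 0x124600001 (.node 0x4e8 .nil .nil) .nil))) (.node 0x5c600001 (.node 0x124800001 (.node 0x21401e8c (.node 0x390 .nil (.node 0x398 .nil .nil)) (.node 0x398 .nil .nil)) (.node 0x15ec00001 (.node 0x398 .nil .nil) .nil)) (.node 0x6ac00001 (.node 0x1a5600001 (.node 0x398 .nil .nil) .nil) .nil))) (.node 0x13e00001 (.node 0x6ae00001 (.node 0x15ee00001 (.node 0x30001e8c (.node 0x390 .nil (.node 0x398 .nil .nil)) (.node 0x398 .nil .nil)) (.node 0x1a5800001 (.node 0x398 .nil .nil)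
 .nil)) (.node 0x7c600001 (.node 0x398 .nil .nil) .nil)) (.node 0x1f000001 (.node 0x91e00001 (.node 0x398 .nil .nil) .nil) .nil))) (.node 0x5 (.node 0x1f200001 (.node 0x7c800001 (.node 0x1a5a00001 (.node 0x2b1200001 (.node 0x2c5200001 (.node 0x2d2000001 (.node 0x518 .nil (.node 0x520 .nil .nil)) (.node 0x520 .nil .nil)) (.node 0x2c8600001 (.node 0x530 .nil .nil) .nil)) (.node 0x6e01e5c (.node 0x530 .nil .nil) .nil)) (.node 0xc01e8c (.node 0xca01eac (.node 0x578 .nil .nil) .nil) .nil)) (.node 0x92000001 (.node 0x6001e8c (.node 0x578 .nil .nil) .nil) .nil)) (.node 0x2d800001 (.node 0xaca00001 (.node 0x21a000001 (.node 0x578 .nil .nil) .nil) .nil) .nil)) (.node 0x5 (.node 0x3f800001 (.node 0xcd000001 (.node 0x247200001 (.node 0x578 .nil .nil) .nil) .nil) .nil) .nil))))) (.node 0x5 (.node 0x5 (.node 0x4600001 (.node 0x3fa00001 (.node 0x7ca00001 (.node 0x124a00001 (.node 0x21a200001 (.node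
 0x2b5800001 (.node 0x2c2800001 (.node 0x2cf000001 (.node 0x2d3e00001 (.node 0x15a01e4c (.node 0x2d5401e4c (.node 0x2d5001e4c (.node 0x5f0 .nil (.node 0x458 .nil (.node 0x450 .nil (.node 0x448 .nil .nil)))) (.node 0x458 .nil (.node 0x450 .nil (.node 0x448 .nil .nil)))) (.node 0x458 .nil (.node 0x450 .nil (.node 0x448 .nil .nil)))) (.node 0x458 .nil (.node 0x450 .nil (.node 0x448 .nil .nil)))) (.node 0x458 .nil (.node 0x450 .nil (.node 0x7a01e4c (.node 0x460 .nil .nil) .nil)))) (.node 0x458 .nil (.node 0x2d0800001 (.node 0x480 .nil (.node 0x468 .nil .nil)) (.node 0x2d2200001 (.node 0x460 .nil .nil) .nil)))) (.node 0x2c5400001 (.node 0x458 .nil (.node 0x458 .nil (.node 0x478 .nil .nil))) (.node 0x2c8800001 (.node 0x480 .nil (.node 0x468 .nil .nil)) (.node 0x15a01e94 (.node 0x460 .nil .nil) .nil)))) (.node 0x2b9200001 (.node 0x2c8a00001 (.node 0x4e8 .nil (.node 0x4a0 .nil (.node 0x478 .nil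
 .nil))) (.node 0x2cc200001 (.node 0x480 .nil (.node 0x478 .nil .nil)) (.node 0x478 .nil .nil))) (.node 0x2bae00001 (.node 0x480 .nil (.node 0x468 .nil .nil)) (.node 0x2bd400001 (.node 0x460 .nil .nil) .nil)))) (.node 0x247400001 (.node 0x2bb000001 (.node 0x4e8 .nil (.node 0x4a0 .nil (.node 0x478 .nil .nil))) (.node 0x2bd600001 (.node 0x480 .nil (.node 0x478 .nil .nil)) (.node 0x478 .nil .nil))) (.node 0x277200001 (.node 0x480 .nil (.node 0x468 .nil .nil)) (.node 0x2aa800001 (.node 0x5401e94 (.node 0x578 .nil .nil) .nil) .nil)))) (.node 0x15f000001 (.node 0x277400001 (.node 0x4e8 .nil (.node 0x4a0 .nil (.node 0x478 .nil .nil))) (.node 0x2aaa00001 (.node 0x480 .nil (.node 0x478 .nil .nil)) (.node 0x478 .nil .nil))) (.node 0x1a5c00001 (.node 0x480 .nil (.node 0x2b5a00001 (.node 0x468 .nil .nil) .nil)) (.node 0x1cc200001 (.node 0x2b9400001 (.node 0x578 .nil .nil) .nil) .nil)))) (.node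
 0x92200001 (.node 0x1a5e00001 (.node 0x4e8 .nil (.node 0x4a0 .nil (.node 0x478 .nil .nil))) (.node 0x1cc400001 (.node 0x480 .nil (.node 0x478 .nil .nil)) (.node 0x1f2e00001 (.node 0x478 .nil .nil) .nil))) (.node 0xacc00001 (.node 0x1f3000001 (.node 0x480 .nil (.node 0x480 .nil .nil)) (.node 0x21a400001 (.node 0x23a01e7c (.node 0x578 .nil .nil) .nil) .nil)) (.node 0xcd200001 (.node 0x247600001 (.node 0x578 .nil .nil) .nil) .nil)))) (.node 0x47600001 (.node 0xace00001 (.node 0x4e8 .nil (.node 0x1f3200001 (.node 0x4a0 .nil (.node 0x4a0 .nil .nil)) (.node 0x21a600001 (.node 0x478 .nil .nil) .nil))) (.node 0xcd400001 (.node 0x21a800001 (.node 0x480 .nil (.node 0x480 .nil .nil)) (.node 0x15a01eb4 (.node 0x478 .nil .nil) .nil)) (.node 0xf4800001 (.node 0x277600001 (.node 0x478 .nil .nil) .nil) .nil))) (.node 0x50e00001 (.node 0xf4a00001 (.node 0x15a01e8c (.node 0x480 .nil (.node 0x480 .nil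
 .nil)) (.node 0x23a01e8c (.node 0x480 .nil .nil) .nil)) (.node 0x124c00001 (.node 0x2aac00001 (.node 0x578 .nil .nil) .nil) .nil)) (.node 0x5c800001 (.node 0x15f200001 (.node 0x578 .nil .nil) .nil) .nil)))) (.node 0xb200001 (.node 0x51000001 (.node 0xcd600001 (.node 0x4e8 .nil (.node 0x4e8 .nil (.node 0x4e8 .nil .nil))) (.node 0xf4c00001 (.node 0x247800001 (.node 0x4a0 .nil (.node 0x4a0 .nil .nil)) (.node 0x21801eb4 (.node 0x4a0 .nil .nil) .nil)) (.node 0x124e00001 (.node 0x2aae00001 (.node 0x478 .nil .nil) .nil) .nil))) (.node 0x5ca00001 (.node 0x125000001 (.node 0x21801e8c (.node 0x480 .nil (.node 0x480 .nil .nil)) (.node 0x30401eb4 (.node 0x480 .nil .nil) .nil)) (.node 0x15f400001 (.node 0x478 .nil .nil) .nil)) (.node 0x6b000001 (.node 0x1a6000001 (.node 0x478 .nil .nil) .nil) .nil))) (.node 0x14000001 (.node 0x6b200001 (.node 0x15f600001 (.node 0x30401e8c (.node 0x480 .nil (.node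
 0x480 .nil .nil)) (.node 0x480 .nil .nil)) (.node 0x1a6200001 (.node 0x480 .nil .nil) .nil)) (.node 0x7cc00001 (.node 0x1cc600001 (.node 0x578 .nil .nil) .nil) .nil)) (.node 0x1f400001 (.node 0x92400001 (.node 0x1f3400001 (.node 0x578 .nil .nil) .nil) .nil) .nil)))) (.node 0x5 (.node 0x14200001 (.node 0x5cc00001 (.node 0xf4e00001 (.node 0x4e8 .nil (.node 0x4e8 .nil (.node 0x4e8 .nil .nil))) (.node 0x125200001 (.node 0x4e8 .nil (.node 0x4e8 .nil .nil)) (.node 0x15f800001 (.node 0x4e8 .nil .nil) .nil))) (.node 0x6b400001 (.node 0x15fa00001 (.node 0x30601e8c (.node 0x4a0 .nil (.node 0x4a0 .nil .nil)) (.node 0x4a0 .nil .nil)) (.node 0x1a6400001 (.node 0x4a0 .nil .nil) .nil)) (.node 0x7ce00001 (.node 0x1cc800001 (.node 0x578 .nil .nil) .nil) .nil))) (.node 0x1f600001 (.node 0x7d000001 (.node 0x1a6600001 (.node 0x2b1400001 (.node 0x2c5600001 (.node 0xee01e54 (.node 0x518 .nil (.node 0x520 .nil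
 .nil)) (.node 0x520 .nil .nil)) (.node 0x2c8c00001 (.node 0x530 .nil .nil) .nil)) (.node 0x5601e9c (.node 0x530 .nil .nil) .nil)) (.node 0xe01e8c (.node 0xc801e9c (.node 0x578 .nil .nil) .nil) .nil)) (.node 0x92600001 (.node 0x5401eb4 (.node 0x578 .nil .nil) .nil) .nil)) (.node 0x2da00001 (.node 0xad000001 (.node 0x21aa00001 (.node 0x578 .nil .nil) .nil) .nil) .nil))) (.node 0x5 (.node 0x2dc00001 (.node 0x92800001 (.node 0x1cca00001 (.node 0x2b5c00001 (.node 0x2c8e00001 (.node 0x2d3a00001 (.node 0x518 .nil (.node 0x520 .nil .nil)) (.node 0x520 .nil .nil)) (.node 0x2cc400001 (.node 0x530 .nil .nil) .nil)) (.node 0xca01e9c (.node 0x530 .nil .nil) .nil)) (.node 0x6201e8c (.node 0x16001e9c (.node 0x578 .nil .nil) .nil) .nil)) (.node 0xad200001 (.node 0xdc01e8c (.node 0x578 .nil .nil) .nil) .nil)) (.node 0x3fc00001 (.node 0xcd800001 (.node 0x247a00001 (.node 0x578 .nil .nil) .nil) .nil)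
 .nil)) (.node 0x5 (.node 0x47800001 (.node 0xf5000001 (.node 0x277800001 (.node 0x578 .nil .nil) .nil) .nil) .nil) .nil)))) (.node 0x5 (.node 0x5 (.node 0x1f800001 (.node 0x6b600001 (.node 0x125400001 (.node 0x4e8 .nil (.node 0x4e8 .nil (.node 0x4e8 .nil .nil))) (.node 0x15fc00001 (.node 0x4e8 .nil (.node 0x4e8 .nil .nil)) (.node 0x1a6800001 (.node 0x4e8 .nil .nil) .nil))) (.node 0x7d200001 (.node 0x1a6a00001 (.node 0x4e8 .nil (.node 0x4e8 .nil .nil)) (.node 0x4e8 .nil .nil)) (.node 0x92a00001 (.node 0x4e8 .nil .nil) .nil))) (.node 0x2de00001 (.node 0x92c00001 (.node 0x1ccc00001 (.node 0x5601e84 (.node 0x2c9000001 (.node 0x18e01e54 (.node 0x518 .nil (.node 0x520 .nil .nil)) (.node 0x520 .nil .nil)) (.node 0x2cc600001 (.node 0x530 .nil .nil) .nil)) (.node 0xca01ea4 (.node 0x530 .nil .nil) .nil)) (.node 0x5601eb4 (.node 0x16001ea4 (.node 0x578 .nil .nil) .nil) .nil)) (.node 0xad400001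
 (.node 0xc801eb4 (.node 0x578 .nil .nil) .nil) .nil)) (.node 0x3fe00001 (.node 0xcda00001 (.node 0x247c00001 (.node 0x578 .nil .nil) .nil) .nil) .nil))) (.node 0x5 (.node 0x40000001 (.node 0xad600001 (.node 0x5601e8c (.node 0xca01e84 (.node 0x2cc800001 (.node 0x25a01e54 (.node 0x518 .nil (.node 0x520 .nil .nil)) (.node 0x520 .nil .nil)) (.node 0x2cde00001 (.node 0x530 .nil .nil) .nil)) (.node 0x17a01e84 (.node 0x530 .nil .nil) .nil)) (.node 0xca01eb4 (.node 0x24001e84 (.node 0x578 .nil .nil) .nil) .nil)) (.node 0xcdc00001 (.node 0x16001eb4 (.node 0x578 .nil .nil) .nil) .nil)) (.node 0x47a00001 (.node 0xf5200001 (.node 0x22001eb4 (.node 0x578 .nil .nil) .nil) .nil) .nil)) (.node 0x5 (.node 0x51200001 (.node 0x125600001 (.node 0x2ab000001 (.node 0x578 .nil .nil) .nil) .nil) .nil) .nil))) (.node 0x5 (.node 0x5 (.node 0x47c00001 (.node 0xcde00001 (.node 0xca01e8c (.node 0x2bb200001 (.node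
 0x2ce000001 (.node 0x2d4200001 (.node 0x518 .nil (.node 0x520 .nil .nil)) (.node 0x520 .nil .nil)) (.node 0x2cf200001 (.node 0x530 .nil .nil) .nil)) (.node 0x25a01e5c (.node 0x530 .nil .nil) .nil)) (.node 0x17a01e8c (.node 0x37401e5c (.node 0x578 .nil .nil) .nil) .nil)) (.node 0xf5400001 (.node 0x24001e8c (.node 0x578 .nil .nil) .nil) .nil)) (.node 0x51400001 (.node 0x125800001 (.node 0x33801e8c (.node 0x578 .nil .nil) .nil) .nil) .nil)) (.node 0x4800001 (.node 0x5ce00001 (.node 0x15fe00001 (.node 0x578 .nil .nil) .nil) .nil) .nil)) (.node 0x5 (.node 0xb400001 (.node 0x6b800001 (.node 0x1a6c00001 (.node 0x578 .nil .nil) .nil) .nil) .nil) .nil))))))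

theorem tree1_ok : chkU blks sds tree1 [] 0 3 = true := by decide +kernel

end Pool.Agent.VMT
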